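import Pool.Agent.helper91.RDR.Main1

/-!
# Abelian subgroups have polynomial relative growth
-/

namespace Pool.Agent.helper91.RDR

open scoped InnerProductSpace

/-- Characters of a commutative group of unitary operators. -/
theorem exists_char {G : Type*} [Group G] {V : Type*} [NormedAddCommGroup V]
    [InnerProductSpace ℂ V] [CompleteSpace V] [Nontrivial V] (π : G →* unitary (V →L[ℂ] V))
    (D : Subgroup G) (hD : ∀ x ∈ D, ∀ y ∈ D, x * y = y * x) :
    ∃ c : G → ℂ, (∀ g ∈ D, ‖c g‖ = 1) ∧ ∀ f : G →₀ ℂ, (∀ g ∈ f.support, g ∈ D) →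
      ‖f.sum fun g a => a * c g‖ ≤ ‖f.sum fun g a => a • (π g : V →L[ℂ] V)‖ := by
  classical
  obtain ⟨s, hs⟩ : ∃ s : Subalgebra ℂ (V →L[ℂ] V),
      s = Algebra.adjoin ℂ ((fun g => (π g : V →L[ℂ] V)) '' (D : Set G)) := ⟨_, rfl⟩
  have hcomm : ∀ a ∈ ((fun g => (π g : V →L[ℂ] V)) '' (D : Set G)),
      ∀ b ∈ ((fun g => (π g : V →L[ℂ] V)) '' (D : Set G)), a * b = b * a := by
    rintro _ ⟨x, hx, rfl⟩ _ ⟨y, hy, rfl⟩
    have h1 : π x * π y = π y * π x := by rw [← map_mul, ← map_mul, hD x hx y hy]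
    exact congrArg Subtype.val h1
  have hsc : ∀ x y : s, x * y = y * x := by
    subst hs
    exact fun x y => (Algebra.adjoinCommRingOfComm ℂ hcomm).mul_comm x y
  let A := s.topologicalClosure
  let _ : CommRing A := s.commRingTopologicalClosure hsc
  let _ : NormedCommRing A := { (inferInstance : NormedRing A) with
    mul_comm := (s.commRingTopologicalClosure hsc).mul_comm }
  have : CompleteSpace A := s.isClosed_topologicalClosure.completeSpace_coe
  have : Nontrivial A := ⟨⟨0, 1, fun h => zero_ne_one (congrArg Subtype.val h)⟩⟩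
  obtain ⟨χ⟩ : Nonempty (WeakDual.characterSpace ℂ A) := inferInstance
  obtain ⟨ψ, -⟩ : ∃ ψ : A →ₐ[ℂ] ℂ, ψ = WeakDual.CharacterSpace.equivAlgHom χ := ⟨_, rfl⟩
  have hmem : ∀ g ∈ D, (π g : V →L[ℂ] V) ∈ A := by
    intro g hg
    apply s.le_topologicalClosure
    rw [hs]
    exact Algebra.subset_adjoin ⟨g, hg, rfl⟩
  have hle : ∀ a : A, ‖ψ a‖ ≤ ‖(a : V →L[ℂ] V)‖ := by
    intro a
    have h1 := AlgHom.norm_apply_le_self_mul_norm_one ψ a
    have h2 : ‖(1 : A)‖ = 1 := by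
      show ‖(1 : V →L[ℂ] V)‖ = 1
      exact norm_one
    rw [h2, mul_one] at h1
    exact h1
  have hu : ∀ g : G, ‖(π g : V →L[ℂ] V)‖ = 1 := fun g => CStarRing.norm_coe_unitary _
  refine ⟨fun g => if hg : g ∈ D then ψ ⟨π g, hmem g hg⟩ else 0, ?_, ?_⟩
  · intro g hg
    simp only [dif_pos hg]
    have h1 : ‖ψ ⟨π g, hmem g hg⟩‖ ≤ 1 := (hle _).trans (hu g).le
    have h2 : ‖ψ ⟨π g⁻¹, hmem g⁻¹ (D.inv_mem hg)⟩‖ ≤ 1 := (hle _).trans (hu g⁻¹).le
    have h3 : ψ ⟨π g, hmem g hg⟩ * ψ ⟨π g⁻¹, hmem g⁻¹ (D.inv_mem hg)⟩ = 1 := by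
      rw [← map_mul]
      have : (⟨π g, hmem g hg⟩ : A) * ⟨π g⁻¹, hmem g⁻¹ (D.inv_mem hg)⟩ = 1 := by
        apply Subtype.ext
        show (π g : V →L[ℂ] V) * (π g⁻¹ : V →L[ℂ] V) = 1
        have h4 : π g * π g⁻¹ = 1 := by rw [← map_mul, mul_inv_cancel, map_one]
        exact congrArg Subtype.val h4
      rw [this, map_one]
    have h4 := congrArg norm h3
    rw [norm_mul, norm_one] at h4
    have h5 := norm_nonneg (ψ ⟨π g, hmem g hg⟩)
    have h6 := norm_nonneg (ψ ⟨π g⁻¹, hmem g⁻¹ (D.inv_mem hg)⟩)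
    refine le_antisymm h1 ?_
    nlinarith
  · intro f hf
    have h1 : (f.sum fun g a => a • (π g : V →L[ℂ] V)) ∈ A := by
      refine A.sum_mem fun g hg => ?_
      exact A.smul_mem (hmem g (hf g hg)) _
    have h2 : ψ ⟨_, h1⟩ = f.sum fun g a => a *
        (if hg : g ∈ D then ψ ⟨π g, hmem g hg⟩ else 0) := by
      have e1 : (⟨_, h1⟩ : A) = ∑ g ∈ f.support.attach, f g • (⟨π g, hmem g (hf g g.2)⟩ : A) := by
        apply Subtype.ext
        rw [AddSubmonoidClass.coe_finset_sum]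
        exact (Finset.sum_attach f.support fun g => f g • (π g : V →L[ℂ] V)).symm
      rw [e1, map_sum, Finsupp.sum]
      conv_rhs => rw [← Finset.sum_attach]
      refine Finset.sum_congr rfl fun g _ => ?_
      rw [map_smul, dif_pos (hf g g.2), smul_eq_mul]
    rw [← h2]
    exact hle ⟨_, h1⟩

/-- Abelian subgroups have polynomial relative growth. -/
theorem abelian_card {G : Type*} [Group G] {L : G → ℕ} {V : Type*} [NormedAddCommGroup V]
    [InnerProductSpace ℂ V] [CompleteSpace V] [Nontrivial V] (π : G →* unitary (V →L[ℂ] V))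
    {s C : ℝ} (hs : 0 < s)
    (h : ∀ v w : V, ‖v‖ = 1 → ‖w‖ = 1 → ∀ F : Finset G,
      ∑ g ∈ F, ‖inner ℂ ((π g : V →L[ℂ] V) v) w‖ ^ 2 * (1 + (L g : ℝ)) ^ (-s) ≤ C)
    (D : Subgroup G) (hD : ∀ x ∈ D, ∀ y ∈ D, x * y = y * x) (R : ℕ) (X : Finset G)
    (hX : ∀ g ∈ X, g ∈ D ∧ L g ≤ R) : (X.card : ℝ) ≤ C * (1 + (R : ℝ)) ^ s := by
  classical
  have hC := RepRD.nonneg h
  obtain ⟨c, hc1, hc2⟩ := exists_char π D hD
  let f : G →₀ ℂ := Finsupp.onFinset X (fun g => if g ∈ X then (starRingEnd ℂ) (c g) else 0)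
    (fun g hg => by by_contra hcon; exact hg (if_neg hcon))
  have hfs : f.support ⊆ X := Finsupp.support_onFinset_subset
  have hfX : ∀ g ∈ X, f g = (starRingEnd ℂ) (c g) := fun g hg => by
    show (if g ∈ X then (starRingEnd ℂ) (c g) else 0) = _
    rw [if_pos hg]
  have h1 := hc2 f (fun g hg => (hX g (hfs hg)).1)
  have h2 : (f.sum fun g a => a * c g) = (X.card : ℂ) := by
    rw [Finsupp.sum_of_support_subset f hfs (fun g a => a * c g) (fun g _ => zero_mul _)]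
    rw [Finset.sum_congr rfl (g := fun _ => (1 : ℂ))]
    · simp
    · intro g hg
      rw [hfX g hg, mul_comm, Complex.mul_conj, Complex.normSq_eq_norm_sq, hc1 g (hX g hg).1]
      norm_num
  have h3 := rd_norm π hC h f
  have h4 : (f.sum fun g a => ‖a‖ ^ 2 * (1 + (L g : ℝ)) ^ s) ≤ X.card * (1 + (R : ℝ)) ^ s := by
    rw [Finsupp.sum_of_support_subset f hfs (fun g a => ‖a‖ ^ 2 * (1 + (L g : ℝ)) ^ s)
      (fun g _ => by simp)]
    rw [← nsmul_eq_mul]
    refine Finset.sum_le_card_nsmul _ _ _ fun g hg => ?_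
    rw [hfX g hg, RCLike.norm_conj, hc1 g (hX g hg).1, one_pow, one_mul]
    apply Real.rpow_le_rpow (by positivity) _ hs.le
    have : (L g : ℝ) ≤ R := by exact_mod_cast (hX g hg).2
    linarith
  rw [h2] at h1
  have h5 : (X.card : ℝ) ^ 2 ≤ C * (X.card * (1 + (R : ℝ)) ^ s) := by
    have e : ‖(X.card : ℂ)‖ = X.card := by simp
    rw [e] at h1
    calc (X.card : ℝ) ^ 2 ≤ ‖f.sum fun g a => a • (π g : V →L[ℂ] V)‖ ^ 2 :=
          pow_le_pow_left₀ (by positivity) h1 2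
      _ ≤ _ := h3.trans (mul_le_mul_of_nonneg_left h4 hC)
  rcases Nat.eq_zero_or_pos X.card with h0 | h0
  · rw [h0, Nat.cast_zero]
    positivity
  · have h0' : (0 : ℝ) < X.card := by exact_mod_cast h0
    have h6 : (X.card : ℝ) * X.card ≤ (C * (1 + (R : ℝ)) ^ s) * X.card := by nlinarith
    exact le_of_mul_le_mul_right h6 h0'

end Pool.Agent.helper91.RDR
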