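import Pool.Agent.helper91.RDR.Abel

/-!
# From the commutator subgroup to the group: chains of commuting elements
-/

namespace Pool.Agent.helper91.RDR

open Finset
open scoped commutatorElement

variable {G : Type*} [Group G]

/-- Every finite set of elements of `A` of length at most `R` has at most `q` elements. -/
def CardLe (L : G → ℕ) (A : Subgroup G) (R : ℕ) (q : ℝ) : Prop :=
  ∀ X : Finset G, (∀ g ∈ X, g ∈ A ∧ L g ≤ R) → (X.card : ℝ) ≤ q

theorem chain_fib {L : G → ℕ} (hL : IsLength L) {A N : Subgroup G}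
    (hN : ∀ x ∈ A, ∀ y ∈ A, ⁅x, y⁆ ∈ N) {R : ℕ} {q : ℝ} (hq : CardLe L N (6 * R) q)
    (hq0 : 0 ≤ q) (l : List G) (hl : ∀ b ∈ l, b ∈ A ∧ L b ≤ 2 * R) (X : Finset G)
    (hX : ∀ g ∈ X, g ∈ A ∧ L g ≤ R) :
    ∃ X' ⊆ X, (X.card : ℝ) ≤ q ^ l.length * X'.card ∧
      ∀ y ∈ X', ∀ y' ∈ X', ∀ b ∈ l, ⁅b, y⁆ = ⁅b, y'⁆ := by
  classical
  induction l with
  | nil => exact ⟨X, Subset.refl _, by simp, by simp⟩
  | cons b t ih =>
    obtain ⟨X1, hX1, hcard, hfib⟩ := ih fun c hc => hl c (List.mem_cons_of_mem _ hc)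
    obtain ⟨hbA, hbR⟩ := hl b List.mem_cons_self
    rcases X1.eq_empty_or_nonempty with h0 | h0
    · refine ⟨X1, hX1, ?_, ?_⟩
      · rw [h0, card_empty, Nat.cast_zero, mul_zero] at hcard ⊢
        exact hcard
      · rw [h0]
        simp
    · obtain ⟨I, hI⟩ : ∃ I, I = X1.image fun y => ⁅b, y⁆ := ⟨_, rfl⟩
      have hmaps : ∀ y ∈ X1, ⁅b, y⁆ ∈ I := fun y hy => by
        rw [hI]
        exact mem_image_of_mem _ hy
      have hIne : I.Nonempty := by rw [hI]; exact h0.image _
      have hIq : (I.card : ℝ) ≤ q := by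
        refine hq I fun g hg => ?_
        rw [hI, mem_image] at hg
        obtain ⟨y, hy, rfl⟩ := hg
        obtain ⟨hyA, hyR⟩ := hX y (hX1 hy)
        refine ⟨hN b hbA y hyA, ?_⟩
        rw [commutatorElement_def]
        have e1 := hL.mul (b * y * b⁻¹) y⁻¹
        have e2 := hL.mul (b * y) b⁻¹
        have e3 := hL.mul b y
        rw [hL.inv] at e1 e2
        omega
      have hI0 : (0 : ℝ) < I.card := by exact_mod_cast hIne.card_pos
      obtain ⟨c, hc, hc'⟩ := exists_le_card_fiber_of_nsmul_le_card_of_maps_to (M := ℝ) (s := X1)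
        (t := I) (f := fun y => ⁅b, y⁆) (b := (X1.card : ℝ) / I.card) hmaps hIne
        (by rw [nsmul_eq_mul, mul_div_cancel₀ _ hI0.ne'])
      refine ⟨X1.filter fun y => ⁅b, y⁆ = c, (filter_subset _ _).trans hX1, ?_, ?_⟩
      · have e1 : (X1.card : ℝ) ≤ q * (X1.filter fun y => ⁅b, y⁆ = c).card := by
          rw [div_le_iff₀ hI0] at hc'
          refine hc'.trans ?_
          rw [mul_comm]
          exact mul_le_mul_of_nonneg_right hIq (by positivity)
        rw [List.length_cons, pow_succ, mul_assoc]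
        exact hcard.trans (mul_le_mul_of_nonneg_left e1 (by positivity))
      · intro y hy y' hy' d hd
        rw [mem_filter] at hy hy'
        rcases List.mem_cons.1 hd with rfl | hd
        · rw [hy.2, hy'.2]
        · exact hfib y hy.1 y' hy'.1 d hd

/-- Chains of commuting elements, each outside the group generated by the earlier ones. -/
def Chain (L : G → ℕ) (A : Subgroup G) (R : ℕ) : List G → Prop
  | [] => True
  | a :: t => Chain L A R t ∧ a ∈ A ∧ L a ≤ 2 * R ∧ (∀ b ∈ t, a * b = b * a) ∧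
      a ∉ Subgroup.closure {b | b ∈ t}

theorem Chain.mem {L : G → ℕ} {A : Subgroup G} {R : ℕ} {l : List G} (h : Chain L A R l) :
    ∀ b ∈ l, b ∈ A ∧ L b ≤ 2 * R := by
  induction l with
  | nil => simp
  | cons a t ih =>
    obtain ⟨h1, h2, h3, -, -⟩ := h
    intro b hb
    rcases List.mem_cons.1 hb with rfl | hb
    · exact ⟨h2, h3⟩
    · exact ih h1 b hb

theorem Chain.comm {L : G → ℕ} {A : Subgroup G} {R : ℕ} {l : List G} (h : Chain L A R l) :
    ∀ b ∈ l, ∀ c ∈ l, b * c = c * b := by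
  induction l with
  | nil => simp
  | cons a t ih =>
    obtain ⟨h1, -, -, h4, -⟩ := h
    intro b hb c hc
    rcases List.mem_cons.1 hb with hb | hb
    · rcases List.mem_cons.1 hc with hc | hc
      · rw [hb, hc]
      · rw [hb]
        exact h4 c hc
    · rcases List.mem_cons.1 hc with hc | hc
      · rw [hc]
        exact (h4 b hb).symm
      · exact ih h1 b hb c hc

theorem closure_comm {s : Set G} (hs : ∀ b ∈ s, ∀ c ∈ s, b * c = c * b) :
    ∀ x ∈ Subgroup.closure s, ∀ y ∈ Subgroup.closure s, x * y = y * x := by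
  intro x hx y hy
  have := Subgroup.isMulCommutative_closure hs
  exact congrArg Subtype.val
    (this.is_comm.comm (⟨x, hx⟩ : Subgroup.closure s) ⟨y, hy⟩)

theorem Chain.card {L : G → ℕ} (hL : IsLength L) {A : Subgroup G} {R : ℕ} {l : List G}
    (h : Chain L A R l) : ∃ E : Finset G, E.card = 2 ^ l.length ∧
      ∀ e ∈ E, e ∈ Subgroup.closure {b | b ∈ l} ∧ L e ≤ 2 * R * l.length := by
  classical
  induction l with
  | nil =>
    refine ⟨{1}, by simp, ?_⟩
    intro e he
    rw [mem_singleton] at he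
    rw [he, hL.one]
    exact ⟨one_mem _, Nat.zero_le _⟩
  | cons a t ih =>
    obtain ⟨h1, h2, h3, h4, h5⟩ := h
    obtain ⟨E, hE, hE'⟩ := ih h1
    have hsub : Subgroup.closure {b | b ∈ t} ≤ Subgroup.closure {b | b ∈ a :: t} :=
      Subgroup.closure_mono fun b hb => List.mem_cons_of_mem _ hb
    have ha : a ∈ Subgroup.closure {b | b ∈ a :: t} :=
      Subgroup.subset_closure (show a ∈ a :: t from List.mem_cons_self)
    have hdisj : Disjoint E (E.image fun e => a * e) := by
      rw [disjoint_left]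
      intro e he he'
      rw [mem_image] at he'
      obtain ⟨e', he', rfl⟩ := he'
      apply h5
      have := mul_mem (hE' _ he).1 (inv_mem (hE' _ he').1)
      rwa [mul_inv_cancel_right] at this
    refine ⟨E ∪ E.image fun e => a * e, ?_, ?_⟩
    · rw [card_union_of_disjoint hdisj, card_image_of_injective _ (mul_right_injective a), hE,
        List.length_cons, pow_succ]
      ring
    · intro e he
      rw [List.length_cons]
      rcases mem_union.1 he with he | he
      · refine ⟨hsub (hE' e he).1, (hE' e he).2.trans ?_⟩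
        exact Nat.mul_le_mul_left _ (Nat.le_succ _)
      · rw [mem_image] at he
        obtain ⟨e', he', rfl⟩ := he
        refine ⟨mul_mem ha (hsub (hE' e' he').1), ?_⟩
        have e1 := hL.mul a e'
        have e2 := (hE' e' he').2
        calc L (a * e') ≤ 2 * R + 2 * R * t.length := by omega
          _ = 2 * R * (t.length + 1) := by ring

theorem step_card {L : G → ℕ} (hL : IsLength L) {A N : Subgroup G}
    (hN : ∀ x ∈ A, ∀ y ∈ A, ⁅x, y⁆ ∈ N) {R k : ℕ} {q : ℝ} (hq : CardLe L N (6 * R) q)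
    (hq1 : 1 ≤ q) {Q : ℕ → ℝ}
    (hQ : ∀ D : Subgroup G, (∀ x ∈ D, ∀ y ∈ D, x * y = y * x) → ∀ R, CardLe L D R (Q R))
    (hk : Q (2 * R * k) < 2 ^ k) : CardLe L A R (q ^ k * Q (2 * R)) := by
  classical
  intro X hX
  by_contra hcon
  push Not at hcon
  have hQ0 : 0 ≤ Q (2 * R) := by
    have := hQ ⊥ (by simp) (2 * R) ∅ (by simp)
    simpa using this
  have key : ∀ j ≤ k, ∃ l : List G, Chain L A R l ∧ l.length = j := by
    intro j
    induction j with
    | zero => exact fun _ => ⟨[], trivial, rfl⟩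
    | succ j ih =>
      intro hj
      obtain ⟨l, hl, hlj⟩ := ih (by omega)
      obtain ⟨X', hX', hcard, hfib⟩ := chain_fib hL hN hq (by linarith) l hl.mem X hX
      have h1 : Q (2 * R) < X'.card := by
        have e1 : q ^ l.length * Q (2 * R) ≤ q ^ k * Q (2 * R) :=
          mul_le_mul_of_nonneg_right (pow_le_pow_right₀ hq1 (by omega)) hQ0
        have e2 : q ^ l.length * Q (2 * R) < q ^ l.length * X'.card := by linarith
        exact lt_of_mul_lt_mul_left e2 (by positivity)
      have h2 : X'.Nonempty := by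
        rw [← card_pos]
        have : (0 : ℝ) < X'.card := lt_of_le_of_lt hQ0 h1
        exact_mod_cast this
      obtain ⟨y0, hy0⟩ := h2
      obtain ⟨Y, hY⟩ : ∃ Y, Y = X'.image fun y => y0⁻¹ * y := ⟨_, rfl⟩
      have hYc : Y.card = X'.card := by
        rw [hY, card_image_of_injective _ (mul_right_injective y0⁻¹)]
      have hYp : ∀ a ∈ Y, a ∈ A ∧ L a ≤ 2 * R ∧ ∀ b ∈ l, a * b = b * a := by
        intro a ha
        rw [hY, mem_image] at ha
        obtain ⟨y, hy, rfl⟩ := ha
        obtain ⟨g1, g2⟩ := hX y (hX' hy)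
        obtain ⟨g3, g4⟩ := hX y0 (hX' hy0)
        refine ⟨mul_mem (inv_mem g3) g1, ?_, ?_⟩
        · have e1 := hL.mul y0⁻¹ y
          rw [hL.inv] at e1
          omega
        · intro b hb
          have e1 := hfib y hy y0 hy0 b hb
          rw [commutatorElement_def, commutatorElement_def] at e1
          have e2 : y * b⁻¹ * y⁻¹ = y0 * b⁻¹ * y0⁻¹ := by
            have := congrArg (fun z => b⁻¹ * z) e1
            simpa [mul_assoc] using this
          have e3 : y0⁻¹ * y * b⁻¹ = b⁻¹ * (y0⁻¹ * y) := by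
            calc y0⁻¹ * y * b⁻¹ = y0⁻¹ * (y * b⁻¹ * y⁻¹) * y := by group
              _ = y0⁻¹ * (y0 * b⁻¹ * y0⁻¹) * y := by rw [e2]
              _ = _ := by group
          calc y0⁻¹ * y * b = b * (b⁻¹ * (y0⁻¹ * y)) * b := by group
            _ = b * (y0⁻¹ * y * b⁻¹) * b := by rw [e3]
            _ = _ := by group
      have h3 : ∃ a ∈ Y, a ∉ Subgroup.closure {b | b ∈ l} := by
        by_contra hcon2
        push Not at hcon2
        have := hQ (Subgroup.closure {b | b ∈ l}) (closure_comm hl.comm) (2 * R) Y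
          fun a ha => ⟨hcon2 a ha, (hYp a ha).2.1⟩
        rw [hYc] at this
        linarith
      obtain ⟨a, haY, hacl⟩ := h3
      obtain ⟨g1, g2, g3⟩ := hYp a haY
      exact ⟨a :: l, ⟨hl, g1, g2, g3, hacl⟩, by rw [List.length_cons, hlj]⟩
  obtain ⟨l, hl, hlk⟩ := key k le_rfl
  obtain ⟨E, hE, hE'⟩ := hl.card hL
  have h1 := hQ (Subgroup.closure {b | b ∈ l}) (closure_comm hl.comm) (2 * R * k) E
    fun e he => ⟨(hE' e he).1, by rw [← hlk]; exact (hE' e he).2⟩
  rw [hE, hlk] at h1
  push_cast at h1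
  linarith

end Pool.Agent.helper91.RDR
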