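import Mathlib

/-!
# Rapid decay for unitary representations: definitions (MP_663661_an)
-/

namespace Pool.Agent.helper91.RDR

open scoped InnerProductSpace

/-- The word length of `g` with respect to the finite set `S` (letters in `S` and `S⁻¹`). -/
noncomputable def wordLength {G : Type*} [Group G] (S : Finset G) (g : G) : ℕ :=
  sInf {n | ∃ l : List G, l.length = n ∧ (∀ x ∈ l, x ∈ S ∨ x⁻¹ ∈ S) ∧ l.prod = g}

/-- The unitary representation `π` has Property RD for the length function `L`: there are `s > 0`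
and `C` with `∑_g |⟪π g v, w⟫|² (1 + L g)^(-s) ≤ C` for all unit vectors `v`, `w` (all finite
partial sums are bounded by `C`). -/
def RepRD {G : Type*} [Group G] (L : G → ℕ) {V : Type*} [NormedAddCommGroup V]
    [InnerProductSpace ℂ V] [CompleteSpace V] (π : G →* unitary (V →L[ℂ] V)) : Prop :=
  ∃ s : ℝ, 0 < s ∧ ∃ C : ℝ, ∀ v w : V, ‖v‖ = 1 → ‖w‖ = 1 → ∀ F : Finset G,
    ∑ g ∈ F, ‖inner ℂ ((π g : V →L[ℂ] V) v) w‖ ^ 2 * (1 + (L g : ℝ)) ^ (-s) ≤ C

/-- The group `G` has Property RD for the length function `L`: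
`‖f * ξ‖₂ ≤ C ‖f‖_{2,s} ‖ξ‖₂` for all finitely supported `f` and all `ξ ∈ ℓ²(G)`; here `η` is the
convolution `f * ξ`. -/
def GroupRD {G : Type*} [Group G] (L : G → ℕ) : Prop :=
  ∃ C s : ℝ, 0 ≤ C ∧ 0 ≤ s ∧ ∀ (f : G →₀ ℂ) (ξ η : lp (fun _ : G => ℂ) 2),
    (∀ x, η x = f.sum fun g c => c * ξ (g⁻¹ * x)) →
      ‖η‖ ≤ C * Real.sqrt (f.sum fun g c => ‖c‖ ^ 2 * (1 + (L g : ℝ)) ^ (2 * s)) * ‖ξ‖

/-- The norm closure of the linear span of the set `T` of operators. -/
def closedSpan {H : Type*} [NormedAddCommGroup H] [InnerProductSpace ℂ H]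
    (T : Set (H →L[ℂ] H)) : Set (H →L[ℂ] H) :=
  closure (Submodule.span ℂ T)

/-- The algebra `A` of operators on `H` has no norm closed two-sided ideals except `0` and `A`. -/
def TopSimple {H : Type*} [NormedAddCommGroup H] [InnerProductSpace ℂ H]
    (A : Set (H →L[ℂ] H)) : Prop :=
  ∀ I : Submodule ℂ (H →L[ℂ] H), IsClosed (I : Set (H →L[ℂ] H)) → (∀ x ∈ I, x ∈ A) →
    (∀ a ∈ A, ∀ x ∈ I, a * x ∈ I ∧ x * a ∈ I) → (∀ x ∈ I, x = 0) ∨ ∀ a ∈ A, a ∈ I

/-- The norm closed linear span of the set `T` of operators has no norm closed two-sided ideals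
except `0` and itself. -/
def SpanSimple {H : Type*} [NormedAddCommGroup H] [InnerProductSpace ℂ H]
    (T : Set (H →L[ℂ] H)) : Prop :=
  TopSimple (closedSpan T)

/-- The operators on `H` which act by a left translation of `G` on the functions `ev ξ`, that is
`ev (T ξ) x = ev ξ (g⁻¹ x)`. -/
def translations {G : Type*} [Group G] {H : Type*} [NormedAddCommGroup H] [InnerProductSpace ℂ H]
    (ev : H → G → ℂ) : Set (H →L[ℂ] H) :=
  {T | ∃ g : G, ∀ ξ x, ev (T ξ) x = ev ξ (g⁻¹ * x)}

/-- The group `G` is C*-simple: its reduced C*-algebra, that is the norm closed linear span of the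
left translations of `ℓ²(G)`, has no norm closed two-sided ideals except `0` and itself. -/
def CStarSimple (G : Type*) [Group G] : Prop :=
  SpanSimple (translations fun (ξ : lp (fun _ : G => ℂ) 2) (x : G) => ξ x)

end Pool.Agent.helper91.RDR
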