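import Pool.Agent.helper91.RDR.Chain

/-!
# Quasi-polynomial relative growth of virtually solvable subgroups
-/

namespace Pool.Agent.helper91.RDR

open Finset Filter Topology
open scoped commutatorElement

variable {G : Type*} [Group G]

theorem log_two_le (R : ℕ) : Real.log 2 ≤ Real.log ((R : ℝ) + 2) :=
  Real.log_le_log (by norm_num) (by linarith [Nat.cast_nonneg (α := ℝ) R])

/-- choice of the length of the chain -/
theorem choose_k {C s : ℝ} (hC : 0 ≤ C) : ∃ κ : ℝ, 0 ≤ κ ∧ ∀ R : ℕ, ∃ k : ℕ,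
    (k : ℝ) ≤ κ * Real.log ((R : ℝ) + 2) ∧ C * (1 + ((2 * R * k : ℕ) : ℝ)) ^ s < 2 ^ k := by
  obtain ⟨m, hm⟩ := exists_nat_ge (max s 0)
  have hms : s ≤ m := (le_max_left _ _).trans hm
  -- polynomial against exponential
  have hr : (1 : ℝ) < Real.sqrt 2 := by
    rw [Real.lt_sqrt (by norm_num)]
    norm_num
  obtain ⟨M, hM⟩ : ∃ M : ℝ, ∀ k : ℕ, (k : ℝ) ^ m / Real.sqrt 2 ^ k ≤ M := by
    have := (tendsto_pow_const_div_const_pow_of_one_lt m hr).bddAbove_range
    obtain ⟨M, hM⟩ := this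
    exact ⟨M, fun k => hM ⟨k, rfl⟩⟩
  have hM0 : 0 ≤ M := le_trans (by positivity) (hM 0)
  obtain ⟨M', hM'⟩ : ∃ M' : ℝ, M' = C * (2 ^ m * (M * Real.sqrt 2)) + 1 := ⟨_, rfl⟩
  have hM'1 : 1 ≤ M' := by rw [hM']; have : 0 ≤ C * (2 ^ m * (M * Real.sqrt 2)) := by positivity
                           linarith
  have hpoly : ∀ k : ℕ, C * (2 * ((k : ℝ) + 1)) ^ m ≤ M' * Real.sqrt 2 ^ k := by
    intro k
    have h1 := hM (k + 1)
    rw [div_le_iff₀ (by positivity)] at h1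
    push_cast at h1
    have h2 : C * (2 * ((k : ℝ) + 1)) ^ m ≤ C * (2 ^ m * (M * Real.sqrt 2 ^ (k + 1))) := by
      rw [mul_pow]
      exact mul_le_mul_of_nonneg_left (mul_le_mul_of_nonneg_left h1 (by positivity)) hC
    have h3 : C * (2 ^ m * (M * Real.sqrt 2 ^ (k + 1))) =
        C * (2 ^ m * (M * Real.sqrt 2)) * Real.sqrt 2 ^ k := by rw [pow_succ]; ring
    rw [h3] at h2
    refine h2.trans (mul_le_mul_of_nonneg_right ?_ (by positivity))
    rw [hM']
    linarith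
  have hl2 : 0 < Real.log 2 := Real.log_pos (by norm_num)
  obtain ⟨c, hc⟩ : ∃ c : ℝ, c = m + Real.log M' / Real.log 2 + 1 / 2 := ⟨_, rfl⟩
  have hlM : 0 ≤ Real.log M' := Real.log_nonneg hM'1
  have hc0 : 0 ≤ c := by rw [hc]; positivity
  refine ⟨2 / Real.log 2 * c + 1, by positivity, fun R => ?_⟩
  obtain ⟨t, ht⟩ : ∃ t, t = Real.log ((R : ℝ) + 2) := ⟨_, rfl⟩
  have ht2 : Real.log 2 ≤ t := by rw [ht]; exact log_two_le R
  have ht0 : 0 < t := hl2.trans_le ht2
  refine ⟨⌊(2 / Real.log 2 * c + 1) * t⌋₊, ?_, ?_⟩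
  · rw [← ht]
    exact Nat.floor_le (by positivity)
  · obtain ⟨k, hk⟩ : ∃ k, k = ⌊(2 / Real.log 2 * c + 1) * t⌋₊ := ⟨_, rfl⟩
    rw [← hk]
    have hk1 : (2 / Real.log 2 * c + 1) * t < k + 1 := by rw [hk]; exact Nat.lt_floor_add_one _
    have hR0 : (0 : ℝ) ≤ R := Nat.cast_nonneg R
    have hk0 : (0 : ℝ) ≤ k := Nat.cast_nonneg k
    -- the main inequality of logarithms
    have h1 : (m : ℝ) * t + Real.log M' < k * (Real.log 2 / 2) := by
      have e1 : (2 / Real.log 2 * c + 1) * t * (Real.log 2 / 2) = c * t + Real.log 2 / 2 * t := by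
        field_simp
      have e2 : (2 / Real.log 2 * c + 1) * t * (Real.log 2 / 2) < (k + 1) * (Real.log 2 / 2) :=
        mul_lt_mul_of_pos_right hk1 (by positivity)
      rw [e1] at e2
      have e3 : Real.log M' ≤ Real.log M' / Real.log 2 * t := by
        rw [div_mul_eq_mul_div, le_div_iff₀ hl2]
        exact mul_le_mul_of_nonneg_left ht2 hlM
      have e4 : c * t = m * t + Real.log M' / Real.log 2 * t + 1 / 2 * t := by rw [hc]; ring
      have e5 : Real.log 2 / 2 ≤ 1 / 2 * t := by linarith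
      have e6 : 0 < Real.log 2 / 2 * t := by positivity
      linarith
    have h2 : ((R : ℝ) + 2) ^ m * M' < Real.sqrt 2 ^ k := by
      have e1 : ((R : ℝ) + 2) ^ m * M' = Real.exp (m * t + Real.log M') := by
        rw [Real.exp_add, Real.exp_log (by linarith), ht, mul_comm (m : ℝ),
          Real.exp_mul, Real.exp_log (by linarith), Real.rpow_natCast]
      have e2 : Real.sqrt 2 ^ k = Real.exp (k * (Real.log 2 / 2)) := by
        rw [mul_comm, Real.exp_mul, Real.rpow_natCast]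
        congr 1
        rw [Real.sqrt_eq_rpow, Real.rpow_def_of_pos (by norm_num)]
        congr 1
        ring
      rw [e1, e2]
      exact Real.exp_lt_exp.2 h1
    have h3 : (1 + ((2 * R * k : ℕ) : ℝ)) ^ s ≤ ((R : ℝ) + 2) ^ m * (2 * ((k : ℝ) + 1)) ^ m := by
      have e1 : (1 : ℝ) ≤ 1 + ((2 * R * k : ℕ) : ℝ) := by
        have : (0 : ℝ) ≤ ((2 * R * k : ℕ) : ℝ) := Nat.cast_nonneg _
        linarith
      have e2 : 1 + ((2 * R * k : ℕ) : ℝ) ≤ ((R : ℝ) + 2) * (2 * ((k : ℝ) + 1)) := by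
        push_cast
        nlinarith
      calc (1 + ((2 * R * k : ℕ) : ℝ)) ^ s ≤ (1 + ((2 * R * k : ℕ) : ℝ)) ^ (m : ℝ) :=
            Real.rpow_le_rpow_of_exponent_le e1 hms
        _ = (1 + ((2 * R * k : ℕ) : ℝ)) ^ m := Real.rpow_natCast _ _
        _ ≤ (((R : ℝ) + 2) * (2 * ((k : ℝ) + 1))) ^ m := pow_le_pow_left₀ (by linarith) e2 m
        _ = _ := mul_pow _ _ _
    have hsq : Real.sqrt 2 ^ k * Real.sqrt 2 ^ k = 2 ^ k := by
      rw [← mul_pow, Real.mul_self_sqrt (by norm_num)]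
    calc C * (1 + ((2 * R * k : ℕ) : ℝ)) ^ s
        ≤ C * (((R : ℝ) + 2) ^ m * (2 * ((k : ℝ) + 1)) ^ m) := mul_le_mul_of_nonneg_left h3 hC
      _ = ((R : ℝ) + 2) ^ m * (C * (2 * ((k : ℝ) + 1)) ^ m) := by ring
      _ ≤ ((R : ℝ) + 2) ^ m * (M' * Real.sqrt 2 ^ k) :=
          mul_le_mul_of_nonneg_left (hpoly k) (by positivity)
      _ = (((R : ℝ) + 2) ^ m * M') * Real.sqrt 2 ^ k := by ring
      _ < Real.sqrt 2 ^ k * Real.sqrt 2 ^ k := mul_lt_mul_of_pos_right h2 (by positivity)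
      _ = 2 ^ k := hsq

/-- Quasi-polynomial relative growth with the constant `c`. -/
def GrowthLe (L : G → ℕ) (A : Subgroup G) (e : ℕ) (c : ℝ) : Prop :=
  ∀ R : ℕ, CardLe L A R (Real.exp (c * Real.log ((R : ℝ) + 2) ^ e))

theorem one_le_log_pow (R e : ℕ) : 1 ≤ (1 / Real.log 2) ^ e * Real.log ((R : ℝ) + 2) ^ e := by
  have hl2 : 0 < Real.log 2 := Real.log_pos (by norm_num)
  rw [← mul_pow]
  apply one_le_pow₀
  rw [div_mul_eq_mul_div, one_mul, le_div_iff₀ hl2, one_mul]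
  exact log_two_le R

theorem growth_step {L : G → ℕ} (hL : IsLength L) {C s : ℝ} (hC : 0 ≤ C) (hs : 0 ≤ s)
    (hQ : ∀ D : Subgroup G, (∀ x ∈ D, ∀ y ∈ D, x * y = y * x) → ∀ R : ℕ,
      CardLe L D R (C * (1 + (R : ℝ)) ^ s)) (e : ℕ) {c : ℝ} (hc0 : 0 ≤ c) :
    ∃ c₁ : ℝ, 0 ≤ c₁ ∧ ∀ A N : Subgroup G, (∀ x ∈ A, ∀ y ∈ A, ⁅x, y⁆ ∈ N) →
      GrowthLe L N e c → GrowthLe L A (e + 1) c₁ := by
  obtain ⟨κ, hκ0, hκ⟩ := choose_k (s := s) hC
  have hl2 : 0 < Real.log 2 := Real.log_pos (by norm_num)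
  have hlC : 0 ≤ Real.log (C + 1) := Real.log_nonneg (by linarith)
  obtain ⟨c', hc'⟩ : ∃ c' : ℝ, c' = Real.log (C + 1) / Real.log 2 + 2 * s := ⟨_, rfl⟩
  have hc'0 : 0 ≤ c' := by rw [hc']; positivity
  refine ⟨κ * c * 4 ^ e + c' * (1 / Real.log 2) ^ e, by positivity, fun A N hN hc R => ?_⟩
  obtain ⟨k, hk1, hk2⟩ := hκ R
  obtain ⟨t, ht⟩ : ∃ t, t = Real.log ((R : ℝ) + 2) := ⟨_, rfl⟩
  have ht2 : Real.log 2 ≤ t := by rw [ht]; exact log_two_le R
  have ht0 : 0 < t := hl2.trans_le ht2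
  have hR0 : (0 : ℝ) ≤ R := Nat.cast_nonneg R
  have hq1 : 1 ≤ Real.exp (c * Real.log (((6 * R : ℕ) : ℝ) + 2) ^ e) := by
    rw [← Real.exp_zero]
    apply Real.exp_le_exp.2
    have : 0 ≤ Real.log (((6 * R : ℕ) : ℝ) + 2) := hl2.le.trans (log_two_le (6 * R))
    positivity
  have h1 := step_card hL hN (hc (6 * R)) hq1 (Q := fun R : ℕ => C * (1 + (R : ℝ)) ^ s) hQ hk2
  intro X hX
  refine (h1 X hX).trans ?_
  rw [← ht]
  -- the two factors
  have e1 : Real.exp (c * Real.log (((6 * R : ℕ) : ℝ) + 2) ^ e) ^ k ≤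
      Real.exp (κ * c * 4 ^ e * t ^ (e + 1)) := by
    rw [← Real.exp_nat_mul]
    apply Real.exp_le_exp.2
    have g1 : Real.log (((6 * R : ℕ) : ℝ) + 2) ≤ 4 * t := by
      have g2 : Real.log (((6 * R : ℕ) : ℝ) + 2) ≤ Real.log (8 * ((R : ℝ) + 2)) := by
        apply Real.log_le_log (by positivity)
        push_cast
        linarith
      rw [Real.log_mul (by norm_num) (by linarith), ← ht,
        show (8 : ℝ) = 2 ^ 3 by norm_num, Real.log_pow] at g2
      push_cast at g2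
      push_cast
      linarith
    have g3 : 0 ≤ Real.log (((6 * R : ℕ) : ℝ) + 2) := hl2.le.trans (log_two_le (6 * R))
    have g4 : Real.log (((6 * R : ℕ) : ℝ) + 2) ^ e ≤ (4 * t) ^ e := pow_le_pow_left₀ g3 g1 e
    calc (k : ℝ) * (c * Real.log (((6 * R : ℕ) : ℝ) + 2) ^ e) ≤ (κ * t) * (c * (4 * t) ^ e) := by
          rw [ht]
          rw [ht] at g4
          exact mul_le_mul hk1 (mul_le_mul_of_nonneg_left g4 hc0) (by positivity)
            (by rw [← ht]; positivity)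
      _ = _ := by rw [mul_pow, pow_succ]; ring
  have e2 : C * (1 + ((2 * R : ℕ) : ℝ)) ^ s ≤
      Real.exp (c' * (1 / Real.log 2) ^ e * t ^ (e + 1)) := by
    have g1 : C ≤ Real.exp (Real.log (C + 1) / Real.log 2 * t) := by
      have : Real.log (C + 1) ≤ Real.log (C + 1) / Real.log 2 * t := by
        rw [div_mul_eq_mul_div, le_div_iff₀ hl2]
        exact mul_le_mul_of_nonneg_left ht2 hlC
      calc C ≤ C + 1 := by linarith
        _ = Real.exp (Real.log (C + 1)) := (Real.exp_log (by linarith)).symm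
        _ ≤ _ := Real.exp_le_exp.2 this
    have g2 : (1 + ((2 * R : ℕ) : ℝ)) ^ s ≤ Real.exp (2 * s * t) := by
      have g3 : 1 + ((2 * R : ℕ) : ℝ) ≤ 2 * ((R : ℝ) + 2) := by push_cast; linarith
      calc (1 + ((2 * R : ℕ) : ℝ)) ^ s ≤ (2 * ((R : ℝ) + 2)) ^ s :=
            Real.rpow_le_rpow (by positivity) g3 hs
        _ = Real.exp ((Real.log 2 + t) * s) := by
            rw [Real.rpow_def_of_pos (by positivity), Real.log_mul (by norm_num) (by linarith), ht]
        _ ≤ _ := by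
            apply Real.exp_le_exp.2
            nlinarith
    have g4 : C * (1 + ((2 * R : ℕ) : ℝ)) ^ s ≤ Real.exp (c' * t) := by
      have : c' * t = Real.log (C + 1) / Real.log 2 * t + 2 * s * t := by rw [hc']; ring
      rw [this, Real.exp_add]
      exact mul_le_mul g1 g2 (by positivity) (Real.exp_pos _).le
    refine g4.trans (Real.exp_le_exp.2 ?_)
    have g5 := one_le_log_pow R e
    rw [← ht] at g5
    calc c' * t = c' * t * 1 := by ring
      _ ≤ c' * t * ((1 / Real.log 2) ^ e * t ^ e) := mul_le_mul_of_nonneg_left g5 (by positivity)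
      _ = _ := by rw [pow_succ]; ring
  have e3 : 0 ≤ C * (1 + ((2 * R : ℕ) : ℝ)) ^ s := by positivity
  calc Real.exp (c * Real.log (((6 * R : ℕ) : ℝ) + 2) ^ e) ^ k *
        (C * (1 + ((2 * R : ℕ) : ℝ)) ^ s)
      ≤ Real.exp (κ * c * 4 ^ e * t ^ (e + 1)) *
        Real.exp (c' * (1 / Real.log 2) ^ e * t ^ (e + 1)) :=
        mul_le_mul e1 e2 e3 (Real.exp_pos _).le
    _ = _ := by rw [← Real.exp_add]; ring_nf

/-- Solvable subgroups: the constant depends only on the derived length. -/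
theorem growth_solvable {L : G → ℕ} (hL : IsLength L) {C s : ℝ} (hC : 0 ≤ C) (hs : 0 ≤ s)
    (hQ : ∀ D : Subgroup G, (∀ x ∈ D, ∀ y ∈ D, x * y = y * x) → ∀ R : ℕ,
      CardLe L D R (C * (1 + (R : ℝ)) ^ s)) (n : ℕ) :
    ∃ c : ℝ, 0 ≤ c ∧ ∀ A : Subgroup G, derivedSeries A n = ⊥ → GrowthLe L A n c := by
  have key : ∀ i : ℕ, ∃ c : ℝ, 0 ≤ c ∧ ∀ A : Subgroup G, derivedSeries A n = ⊥ → i ≤ n →
      GrowthLe L ((derivedSeries A (n - i)).map A.subtype) i c := by
    intro i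
    induction i with
    | zero =>
      refine ⟨0, le_rfl, fun A hA _ => ?_⟩
      rw [Nat.sub_zero, hA, Subgroup.map_bot]
      intro R X hX
      rw [zero_mul, Real.exp_zero]
      have : X ⊆ {1} := fun g hg => by
        rw [mem_singleton]
        exact Subgroup.mem_bot.1 (hX g hg).1
      exact_mod_cast card_le_card this
    | succ i ih =>
      obtain ⟨c, hc0, hc⟩ := ih
      obtain ⟨c₁, hc₁0, hc₁⟩ := growth_step hL hC hs hQ i hc0
      refine ⟨c₁, hc₁0, fun A hA hi => hc₁ _ _ ?_ (hc A hA (by omega))⟩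
      intro x hx y hy
      obtain ⟨a, ha, rfl⟩ := hx
      obtain ⟨b, hb, rfl⟩ := hy
      refine ⟨⁅a, b⁆, ?_, ?_⟩
      · have : n - i = n - (i + 1) + 1 := by omega
        rw [this, derivedSeries_succ]
        exact Subgroup.commutator_mem_commutator ha hb
      · exact map_commutatorElement _ _ _
  obtain ⟨c, hc0, hc⟩ := key n
  refine ⟨c, hc0, fun A hA => ?_⟩
  have h1 := hc A hA le_rfl
  rw [Nat.sub_self, derivedSeries_zero, ← MonoidHom.range_eq_map, Subgroup.range_subtype] at h1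
  exact h1

/-- Passing to a group `A` which contains the group `B` with finite index. -/
theorem growth_index {L : G → ℕ} (hL : IsLength L) (A : Subgroup G) (B : Subgroup A)
    [B.FiniteIndex] {e : ℕ} {c : ℝ} (hc0 : 0 ≤ c) (hc : GrowthLe L (B.map A.subtype) e c) :
    ∀ R : ℕ, CardLe L A R (B.index * Real.exp (c * 2 ^ e * Real.log ((R : ℝ) + 2) ^ e)) := by
  classical
  have hl2 : 0 < Real.log 2 := Real.log_pos (by norm_num)
  have hfin : Finite (A ⧸ B) := inferInstance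
  have : Fintype (A ⧸ B) := Fintype.ofFinite _
  intro R X hX
  have hR0 : (0 : ℝ) ≤ R := Nat.cast_nonneg R
  obtain ⟨Y, hY⟩ : ∃ Y : Finset A, Y = X.subtype (fun g => g ∈ A) := ⟨_, rfl⟩
  have hYc : Y.card = X.card := by
    rw [hY, Finset.card_subtype, Finset.filter_true_of_mem fun g hg => (hX g hg).1]
  have hYL : ∀ y ∈ Y, L (y : G) ≤ R := fun y hy => by
    rw [hY, Finset.mem_subtype] at hy
    exact (hX _ hy).2
  have h1 : ∀ b ∈ (univ : Finset (A ⧸ B)), ((Y.filter fun g : A => (g : A ⧸ B) = b).card : ℝ) ≤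
      Real.exp (c * Real.log (((2 * R : ℕ) : ℝ) + 2) ^ e) := by
    intro b _
    rcases (Y.filter fun g : A => (g : A ⧸ B) = b).eq_empty_or_nonempty with h0 | h0
    · rw [h0, card_empty, Nat.cast_zero]
      exact (Real.exp_pos _).le
    · obtain ⟨x0, hx0⟩ := h0
      rw [mem_filter] at hx0
      have hinj : Function.Injective fun g : A => (((x0⁻¹ * g : A)) : G) :=
        Subtype.val_injective.comp (mul_right_injective x0⁻¹)
      have e1 := hc (2 * R) ((Y.filter fun g : A => (g : A ⧸ B) = b).image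
        fun g : A => ((x0⁻¹ * g : A) : G)) ?_
      · rwa [card_image_of_injective _ hinj] at e1
      · intro g hg
        rw [mem_image] at hg
        obtain ⟨y, hy, rfl⟩ := hg
        rw [mem_filter] at hy
        refine ⟨⟨x0⁻¹ * y, QuotientGroup.eq.1 (hx0.2.trans hy.2.symm), rfl⟩, ?_⟩
        have e2 := hL.mul (x0 : G)⁻¹ (y : G)
        rw [hL.inv] at e2
        have e3 := hYL x0 hx0.1
        have e4 := hYL y hy.1
        show L ((x0 : G)⁻¹ * (y : G)) ≤ 2 * R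
        omega
  have h2 : (X.card : ℝ) ≤ B.index *
      Real.exp (c * Real.log (((2 * R : ℕ) : ℝ) + 2) ^ e) := by
    have e1 := card_eq_sum_card_fiberwise (f := fun g : A => (g : A ⧸ B)) (s := Y)
      (t := (univ : Finset (A ⧸ B))) (fun g _ => by simp)
    rw [← hYc, e1, Nat.cast_sum]
    refine (sum_le_card_nsmul _ _ _ h1).trans (le_of_eq ?_)
    rw [nsmul_eq_mul, Subgroup.index, Nat.card_eq_fintype_card]
    rfl
  refine h2.trans (mul_le_mul_of_nonneg_left ?_ (Nat.cast_nonneg _))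
  obtain ⟨t, ht⟩ : ∃ t, t = Real.log ((R : ℝ) + 2) := ⟨_, rfl⟩
  have ht2 : Real.log 2 ≤ t := by rw [ht]; exact log_two_le R
  rw [← ht]
  apply Real.exp_le_exp.2
  have g1 : Real.log (((2 * R : ℕ) : ℝ) + 2) ≤ 2 * t := by
    have g2 : Real.log (((2 * R : ℕ) : ℝ) + 2) ≤ Real.log (2 * ((R : ℝ) + 2)) := by
      apply Real.log_le_log (by positivity)
      push_cast
      linarith
    rw [Real.log_mul (by norm_num) (by linarith), ← ht] at g2
    linarith
  have g3 : 0 ≤ Real.log (((2 * R : ℕ) : ℝ) + 2) := hl2.le.trans (log_two_le (2 * R))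
  calc c * Real.log (((2 * R : ℕ) : ℝ) + 2) ^ e ≤ c * (2 * t) ^ e :=
        mul_le_mul_of_nonneg_left (pow_le_pow_left₀ g3 g1 e) hc0
    _ = _ := by rw [mul_pow]; ring

end Pool.Agent.helper91.RDR
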