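import Pool.Agent.helper91.RDR.Defs

/-!
# The left regular representation
-/

namespace Pool.Agent.helper91.RDR

/-- The left regular representation: `(λ g ξ) x = ξ (g⁻¹ x)`. -/
theorem translate_mem {G : Type*} [Group G] (g : G) (ξ : lp (fun _ : G => ℂ) 2) :
    Memℓp (E := fun _ : G => ℂ) (fun x => ξ (g⁻¹ * x)) 2 := by
  have h := lp.memℓp ξ
  rw [memℓp_gen_iff (by norm_num)] at h ⊢
  exact h.comp_injective (mul_right_injective g⁻¹)

/-- The left translation by `g` on `ℓ²(G)`: `(lamIso g ξ) x = ξ (g⁻¹ x)`. -/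
noncomputable def lamIso {G : Type*} [Group G] (g : G) :
    lp (fun _ : G => ℂ) 2 →ₗᵢ[ℂ] lp (fun _ : G => ℂ) 2 where
  toFun ξ := ⟨fun x => ξ (g⁻¹ * x), translate_mem g ξ⟩
  map_add' ξ η := rfl
  map_smul' c ξ := rfl
  norm_map' ξ := by
    have h1 := lp.norm_rpow_eq_tsum (p := 2) (by norm_num) ξ
    have h2 := lp.norm_rpow_eq_tsum (p := 2) (by norm_num)
      (⟨fun x => ξ (g⁻¹ * x), translate_mem g ξ⟩ : lp (fun _ : G => ℂ) 2)
    have h3 : ∑' x, ‖ξ (g⁻¹ * x)‖ ^ (2 : ENNReal).toReal = ∑' x, ‖ξ x‖ ^ (2 : ENNReal).toReal :=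
      (Equiv.mulLeft g⁻¹).tsum_eq (fun x => ‖ξ x‖ ^ (2 : ENNReal).toReal)
    rw [← h1] at h3
    have h4 : ‖(⟨fun x => ξ (g⁻¹ * x), translate_mem g ξ⟩ : lp (fun _ : G => ℂ) 2)‖ ^
        (2 : ENNReal).toReal = ‖ξ‖ ^ (2 : ENNReal).toReal := h2.trans h3
    exact (Real.rpow_left_injOn (by norm_num) : Set.InjOn (fun x : ℝ => x ^ (2 : ENNReal).toReal)
      {x | 0 ≤ x}) (norm_nonneg _) (norm_nonneg _) h4

/-- The operator of left translation by `g` on `ℓ²(G)`. -/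
noncomputable def lam {G : Type*} [Group G] (g : G) :
    lp (fun _ : G => ℂ) 2 →L[ℂ] lp (fun _ : G => ℂ) 2 :=
  (lamIso g).toContinuousLinearMap

/-- The reduced C*-algebra. -/
def redCstar (G : Type*) [Group G] :
    Set (lp (fun _ : G => ℂ) 2 →L[ℂ] lp (fun _ : G => ℂ) 2) :=
  closure (Submodule.span ℂ (Set.range (lam (G := G))))

theorem redCstar_eq (G : Type*) [Group G] :
    closedSpan (translations fun (ξ : lp (fun _ : G => ℂ) 2) (x : G) => ξ x) = redCstar G := by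
  have : (translations fun (ξ : lp (fun _ : G => ℂ) 2) (x : G) => ξ x) =
      Set.range (lam (G := G)) := by
    ext T
    constructor
    · rintro ⟨g, hg⟩
      refine ⟨g, ?_⟩
      ext ξ x
      exact (hg ξ x).symm
    · rintro ⟨g, rfl⟩
      exact ⟨g, fun ξ x => rfl⟩
  rw [this]
  rfl

end Pool.Agent.helper91.RDR
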