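import Pool.Agent.helper91.RDR.Simple

/-!
# C*-simple subgroups of groups with a representation with rapid decay
-/

namespace Pool.Agent.helper91.RDR

open scoped InnerProductSpace

theorem wordLength_isLength {G : Type*} [Group G] (S : Finset G)
    (hS : Subgroup.closure (S : Set G) = ⊤) : IsLength (wordLength S) := by
  have hne : ∀ g : G, ∃ n, n ∈ {n | ∃ l : List G, l.length = n ∧ (∀ x ∈ l, x ∈ S ∨ x⁻¹ ∈ S) ∧
      l.prod = g} := by
    intro g
    have hg : g ∈ Subgroup.closure (S : Set G) := by rw [hS]; trivial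
    rw [← Subgroup.mem_toSubmonoid, Subgroup.closure_toSubmonoid] at hg
    obtain ⟨l, hl, hlp⟩ := Submonoid.exists_list_of_mem_closure hg
    exact ⟨l.length, l, rfl, by simpa using hl, hlp⟩
  have hmem : ∀ g : G, ∃ l : List G, l.length = wordLength S g ∧ (∀ x ∈ l, x ∈ S ∨ x⁻¹ ∈ S) ∧
      l.prod = g := fun g => Nat.sInf_mem (hne g)
  have hle : ∀ (g : G) (l : List G), (∀ x ∈ l, x ∈ S ∨ x⁻¹ ∈ S) → l.prod = g →
      wordLength S g ≤ l.length := fun g l h1 h2 => Nat.sInf_le ⟨l, rfl, h1, h2⟩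
  have hinv : ∀ g : G, wordLength S g⁻¹ ≤ wordLength S g := by
    intro g
    obtain ⟨l, h1, h2, h3⟩ := hmem g
    rw [← h1]
    have h4 := hle g⁻¹ (l.map Inv.inv).reverse ?_ ?_
    · simpa using h4
    · intro x hx
      simp only [List.mem_reverse, List.mem_map] at hx
      obtain ⟨y, hy, rfl⟩ := hx
      rw [inv_inv]
      exact (h2 y hy).symm
    · rw [← h3, List.prod_inv_reverse]
  refine ⟨?_, ?_, ?_⟩
  · exact Nat.le_zero.1 (hle 1 [] (by simp) rfl)
  · intro g h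
    obtain ⟨l, h1, h2, h3⟩ := hmem g
    obtain ⟨l', h1', h2', h3'⟩ := hmem h
    rw [← h1, ← h1', ← List.length_append]
    refine hle _ _ ?_ ?_
    · intro x hx
      rw [List.mem_append] at hx
      rcases hx with hx | hx
      · exact h2 x hx
      · exact h2' x hx
    · rw [List.prod_append, h3, h3']
  · intro g
    refine le_antisymm (hinv g) ?_
    have := hinv g⁻¹
    rwa [inv_inv] at this

theorem IsLength.restrict {G : Type*} [Group G] {L : G → ℕ} (hL : IsLength L) (H : Subgroup G) :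
    IsLength fun h : H => L (h : G) :=
  ⟨hL.one, fun g h => hL.mul g h, fun g => hL.inv g⟩

theorem RepRD.restrict {G : Type*} [Group G] {L : G → ℕ} {V : Type*} [NormedAddCommGroup V]
    [InnerProductSpace ℂ V] [CompleteSpace V] {π : G →* unitary (V →L[ℂ] V)} (h : RepRD L π)
    (H : Subgroup G) : RepRD (fun h : H => L (h : G)) (π.comp H.subtype) := by
  obtain ⟨s, hs, C, hC⟩ := h
  refine ⟨s, hs, C, fun v w hv hw F => ?_⟩
  have h1 := hC v w hv hw (F.map ⟨Subtype.val, Subtype.val_injective⟩)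
  rw [Finset.sum_map] at h1
  exact h1

theorem RepRD.nonneg {G : Type*} [Group G] {L : G → ℕ} {V : Type*} [NormedAddCommGroup V]
    [InnerProductSpace ℂ V] [CompleteSpace V] [Nontrivial V] {π : G →* unitary (V →L[ℂ] V)}
    {s C : ℝ} (h : ∀ v w : V, ‖v‖ = 1 → ‖w‖ = 1 → ∀ F : Finset G,
      ∑ g ∈ F, ‖inner ℂ ((π g : V →L[ℂ] V) v) w‖ ^ 2 * (1 + (L g : ℝ)) ^ (-s) ≤ C) : 0 ≤ C := by
  obtain ⟨v, hv⟩ := exists_ne (0 : V)
  have hv' : 0 < ‖v‖ := norm_pos_iff.2 hv
  have h1 : ‖(((‖v‖⁻¹ : ℝ) : ℂ) • v)‖ = 1 := by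
    rw [norm_smul, Complex.norm_real, norm_inv, norm_norm, inv_mul_cancel₀ hv'.ne']
  have h2 := h _ _ h1 h1 ∅
  rwa [Finset.sum_empty] at h2

/-- A C*-simple group with a representation with rapid decay has Property RD. -/
theorem groupRD_of_simple {G : Type*} [Group G] {L : G → ℕ} (hL : IsLength L) {V : Type*}
    [NormedAddCommGroup V] [InnerProductSpace ℂ V] [CompleteSpace V] [Nontrivial V]
    {π : G →* unitary (V →L[ℂ] V)} (hπ : RepRD L π) (hsim : CStarSimple G) : GroupRD L := by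
  obtain ⟨s, hs, C, hC⟩ := hπ
  have hC0 := RepRD.nonneg hC
  have hle : ∀ R x, x ∈ ballSpan L (pairRep π) R → ‖x.2‖ ≤ ‖x.1‖ :=
    fun R x hx => pair_le hL π hs hC0 hC hx
  refine ⟨Real.sqrt C, s / 2, Real.sqrt_nonneg _, by positivity, ?_⟩
  intro f ξ η hη
  have hT : η = (f.sum fun g c => c • lam g) ξ := by
    ext x
    rw [hη x, Finsupp.sum, Finsupp.sum, sum_apply, lp.coeFn_sum, Finset.sum_apply]
    rfl
  have hx : (f.sum fun g c => c • pairRep π g) ∈ pairAlg π := by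
    apply StarSubalgebra.le_topologicalClosure
    refine sum_mem fun g _ => ?_
    exact (StarAlgebra.adjoin ℂ (Set.range (pairRep π))).smul_mem
      (StarAlgebra.subset_adjoin ℂ _ ⟨g, rfl⟩) _
  have h1 := norm_eq_of_simple hL hle hsim hx
  rw [fst_sum, snd_sum] at h1
  have h2 := rd_norm π hC0 hC f
  have h3 : ‖f.sum fun g c => c • (π g : V →L[ℂ] V)‖ ≤
      Real.sqrt C * Real.sqrt (f.sum fun g c => ‖c‖ ^ 2 * (1 + (L g : ℝ)) ^ s) := by
    rw [← Real.sqrt_mul hC0]
    exact Real.le_sqrt_of_sq_le h2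
  have h4 : 2 * (s / 2) = s := by ring
  rw [h4, hT]
  calc ‖(f.sum fun g c => c • lam g) ξ‖ ≤ ‖f.sum fun g c => c • lam g‖ * ‖ξ‖ :=
        ContinuousLinearMap.le_opNorm _ _
    _ ≤ _ := mul_le_mul_of_nonneg_right (h1.trans h3) (norm_nonneg _)

end Pool.Agent.helper91.RDR
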