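import Pool.Agent.helper91.RDR.Growth

/-!
# Virtually solvable subgroups: the final estimate
-/

namespace Pool.Agent.helper91.RDR

/-- Virtually solvable subgroups of a group with a representation with rapid decay have
quasi-polynomial relative growth; the constant depends only on the derived length. -/
theorem growth_of_rep {G : Type*} [Group G] {L : G → ℕ} (hL : IsLength L) {V : Type*}
    [NormedAddCommGroup V] [InnerProductSpace ℂ V] [CompleteSpace V] [Nontrivial V]
    {π : G →* unitary (V →L[ℂ] V)} (hπ : RepRD L π) (n : ℕ) :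
    ∃ c : ℝ, 0 ≤ c ∧ ∀ (A : Subgroup G) (B : Subgroup A), B.FiniteIndex →
      derivedSeries B n = ⊥ → ∀ R : ℕ, {g : G | g ∈ A ∧ L g ≤ R}.Finite ∧
        (({g : G | g ∈ A ∧ L g ≤ R}.ncard : ℕ) : ℝ) ≤
          B.index * Real.exp (c * Real.log ((R : ℝ) + 2) ^ n) := by
  classical
  obtain ⟨s, hs, C, hC⟩ := hπ
  have hC0 := RepRD.nonneg hC
  have hQ : ∀ D : Subgroup G, (∀ x ∈ D, ∀ y ∈ D, x * y = y * x) → ∀ R : ℕ,
      CardLe L D R (C * (1 + (R : ℝ)) ^ s) :=
    fun D hD R X hX => abelian_card π hs hC D hD R X hX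
  obtain ⟨c, hc0, hc⟩ := growth_solvable hL hC0 hs.le hQ n
  refine ⟨c * 2 ^ n, by positivity, fun A B _ hB R => ?_⟩
  have hB' : derivedSeries (B.map A.subtype) n = ⊥ := by
    obtain ⟨e⟩ : Nonempty (B ≃* B.map A.subtype) :=
      ⟨B.equivMapOfInjective A.subtype A.subtype_injective⟩
    have h1 := map_derivedSeries_eq (f := e.toMonoidHom) e.surjective n
    rw [← h1, hB, Subgroup.map_bot]
  have hcard : ∀ X : Finset G, (∀ g ∈ X, g ∈ A ∧ L g ≤ R) →
      (X.card : ℝ) ≤ B.index * Real.exp (c * 2 ^ n * Real.log ((R : ℝ) + 2) ^ n) :=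
    growth_index hL A B hc0 (hc _ hB') R
  have hfin : {g : G | g ∈ A ∧ L g ≤ R}.Finite := by
    by_contra hcon
    obtain ⟨m, hm⟩ := exists_nat_gt
      ((B.index : ℝ) * Real.exp (c * 2 ^ n * Real.log ((R : ℝ) + 2) ^ n))
    obtain ⟨X, hX, hXm⟩ := Set.Infinite.exists_subset_card_eq hcon m
    have h1 := hcard X fun g hg => hX hg
    rw [hXm] at h1
    linarith
  refine ⟨hfin, ?_⟩
  rw [Set.ncard_eq_toFinset_card _ hfin]
  exact hcard _ fun g hg => by
    rw [Set.Finite.mem_toFinset] at hg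
    exact hg

/-- Exponential growth is impossible. -/
theorem no_exponential {f : ℕ → ℝ} {a c : ℝ} {l i : ℕ} (ha : 1 < a) (h1 : ∀ R : ℕ, a ^ R ≤ f R)
    (h2 : ∀ R : ℕ, f R ≤ i * Real.exp (c * Real.log ((R : ℝ) + 2) ^ l)) : False := by
  have hi0 : (i : ℝ) ≠ 0 := by
    intro h0
    have e1 := (h1 0).trans (h2 0)
    rw [h0, zero_mul, pow_zero] at e1
    linarith
  have hla : 0 < Real.log a := Real.log_pos ha
  have hip : (0 : ℝ) < i := lt_of_le_of_ne (Nat.cast_nonneg i) hi0.symm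
  have h3 : ∀ R : ℕ, (R : ℝ) * Real.log a ≤
      Real.log i + c * Real.log ((R : ℝ) + 2) ^ l := by
    intro R
    have e1 := (h1 R).trans (h2 R)
    have e2 : a ^ R = Real.exp (R * Real.log a) := by
      rw [mul_comm, Real.exp_mul, Real.exp_log (by linarith), Real.rpow_natCast]
    have e3 : (i : ℝ) * Real.exp (c * Real.log ((R : ℝ) + 2) ^ l) =
        Real.exp (Real.log i + c * Real.log ((R : ℝ) + 2) ^ l) := by
      rw [Real.exp_add, Real.exp_log hip]
    rw [e2, e3] at e1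
    exact Real.exp_le_exp.1 e1
  -- `log (R + 2) ^ l / (R + 2) → 0`
  have h4 : Filter.Tendsto (fun R : ℕ => Real.log ((R : ℝ) + 2) ^ l / ((R : ℝ) + 2))
      Filter.atTop (nhds 0) := by
    have e1 : Filter.Tendsto (fun x : ℝ => Real.log x ^ l / (1 * x + 0)) Filter.atTop (nhds 0) :=
      Real.tendsto_pow_log_div_mul_add_atTop 1 0 l one_ne_zero
    have e2 : Filter.Tendsto (fun R : ℕ => (R : ℝ) + 2) Filter.atTop Filter.atTop :=
      Filter.tendsto_atTop_add_const_right _ _ tendsto_natCast_atTop_atTop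
    have e3 := e1.comp e2
    refine e3.congr fun R => ?_
    simp
  have h5 : Filter.Tendsto (fun R : ℕ => (R : ℝ) / ((R : ℝ) + 2)) Filter.atTop (nhds 1) := by
    have e1 : Filter.Tendsto (fun R : ℕ => 1 - 2 / ((R : ℝ) + 2)) Filter.atTop (nhds (1 - 0)) :=
      tendsto_const_nhds.sub (Filter.Tendsto.div_atTop tendsto_const_nhds
        (Filter.tendsto_atTop_add_const_right _ _ tendsto_natCast_atTop_atTop))
    rw [sub_zero] at e1
    refine e1.congr fun R => ?_
    have : (R : ℝ) + 2 ≠ 0 := by positivity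
    field_simp
    ring
  have h5' : Filter.Tendsto (fun R : ℕ => Real.log i / ((R : ℝ) + 2)) Filter.atTop (nhds 0) :=
    Filter.Tendsto.div_atTop tendsto_const_nhds
      (Filter.tendsto_atTop_add_const_right _ _ tendsto_natCast_atTop_atTop)
  have h6 : ∀ R : ℕ, (R : ℝ) / ((R : ℝ) + 2) * Real.log a ≤
      Real.log i / ((R : ℝ) + 2) + c * (Real.log ((R : ℝ) + 2) ^ l / ((R : ℝ) + 2)) := by
    intro R
    have e1 : (0 : ℝ) < (R : ℝ) + 2 := by positivity
    rw [div_mul_eq_mul_div, ← mul_div_assoc, ← add_div]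
    exact (div_le_div_iff_of_pos_right e1).2 (h3 R)
  have h7 := le_of_tendsto_of_tendsto' (h5.mul_const (Real.log a)) (h5'.add (h4.const_mul c)) h6
  rw [one_mul, mul_zero, add_zero] at h7
  linarith

end Pool.Agent.helper91.RDR
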