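import Pool.Agent.helper91.RDR.Lam

/-!
# Norm estimates for representations with rapid decay
-/

namespace Pool.Agent.helper91.RDR

open scoped InnerProductSpace
open Filter Topology

/-- Length functions. -/
structure IsLength {G : Type*} [Group G] (L : G → ℕ) : Prop where
  one : L 1 = 0
  mul : ∀ g h, L (g * h) ≤ L g + L h
  inv : ∀ g, L g⁻¹ = L g

section Estimate

variable {G : Type*} [Group G] {L : G → ℕ} {V : Type*} [NormedAddCommGroup V]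
  [InnerProductSpace ℂ V] [CompleteSpace V]

theorem rd_all (π : G →* unitary (V →L[ℂ] V)) {s C : ℝ}
    (h : ∀ v w : V, ‖v‖ = 1 → ‖w‖ = 1 → ∀ F : Finset G,
      ∑ g ∈ F, ‖inner ℂ ((π g : V →L[ℂ] V) v) w‖ ^ 2 * (1 + (L g : ℝ)) ^ (-s) ≤ C)
    (v w : V) (F : Finset G) :
    ∑ g ∈ F, ‖inner ℂ ((π g : V →L[ℂ] V) v) w‖ ^ 2 * (1 + (L g : ℝ)) ^ (-s) ≤
      C * (‖v‖ ^ 2 * ‖w‖ ^ 2) := by
  rcases eq_or_ne v 0 with hv | hv
  · subst hv
    simp
  rcases eq_or_ne w 0 with hw | hw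
  · subst hw
    simp
  have hv' : 0 < ‖v‖ := norm_pos_iff.2 hv
  have hw' : 0 < ‖w‖ := norm_pos_iff.2 hw
  have h1 := h (((‖v‖⁻¹ : ℝ) : ℂ) • v) (((‖w‖⁻¹ : ℝ) : ℂ) • w)
    (by rw [norm_smul, Complex.norm_real, norm_inv, norm_norm, inv_mul_cancel₀ hv'.ne'])
    (by rw [norm_smul, Complex.norm_real, norm_inv, norm_norm, inv_mul_cancel₀ hw'.ne']) F
  have h2 : ∀ g, ‖inner ℂ ((π g : V →L[ℂ] V) (((‖v‖⁻¹ : ℝ) : ℂ) • v)) (((‖w‖⁻¹ : ℝ) : ℂ) • w)‖ ^ 2 =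
      ‖inner ℂ ((π g : V →L[ℂ] V) v) w‖ ^ 2 * (‖v‖ ^ 2 * ‖w‖ ^ 2)⁻¹ := by
    intro g
    rw [map_smul, inner_smul_left, inner_smul_right, norm_mul, norm_mul, RCLike.norm_conj,
      Complex.norm_real, Complex.norm_real, norm_inv, norm_inv, norm_norm, norm_norm, mul_pow,
      mul_pow, mul_inv, inv_pow, inv_pow]
    ring
  simp only [h2] at h1
  have h3 : ∑ g ∈ F, ‖inner ℂ ((π g : V →L[ℂ] V) v) w‖ ^ 2 * (‖v‖ ^ 2 * ‖w‖ ^ 2)⁻¹ *
      (1 + (L g : ℝ)) ^ (-s) = (∑ g ∈ F, ‖inner ℂ ((π g : V →L[ℂ] V) v) w‖ ^ 2 *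
      (1 + (L g : ℝ)) ^ (-s)) * (‖v‖ ^ 2 * ‖w‖ ^ 2)⁻¹ := by
    rw [Finset.sum_mul]
    exact Finset.sum_congr rfl fun g _ => by ring
  rw [h3] at h1
  have h4 : 0 < ‖v‖ ^ 2 * ‖w‖ ^ 2 := by positivity
  rwa [← div_eq_mul_inv, div_le_iff₀ h4] at h1

/-- The operator norm of `π(f)` is bounded by a weighted `ℓ²` norm. -/
theorem rd_norm (π : G →* unitary (V →L[ℂ] V)) {s C : ℝ} (hC : 0 ≤ C)
    (h : ∀ v w : V, ‖v‖ = 1 → ‖w‖ = 1 → ∀ F : Finset G,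
      ∑ g ∈ F, ‖inner ℂ ((π g : V →L[ℂ] V) v) w‖ ^ 2 * (1 + (L g : ℝ)) ^ (-s) ≤ C)
    (f : G →₀ ℂ) :
    ‖f.sum fun g c => c • (π g : V →L[ℂ] V)‖ ^ 2 ≤
      C * f.sum fun g c => ‖c‖ ^ 2 * (1 + (L g : ℝ)) ^ s := by
  set T : V →L[ℂ] V := f.sum fun g c => c • (π g : V →L[ℂ] V) with hT
  set K : ℝ := f.sum fun g c => ‖c‖ ^ 2 * (1 + (L g : ℝ)) ^ s with hK
  have hpos : ∀ g : G, (0 : ℝ) < 1 + (L g : ℝ) := fun g => by positivity
  have hK0 : 0 ≤ K := by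
    rw [hK]
    exact Finset.sum_nonneg fun g _ => by have := hpos g; positivity
  have key : ∀ v : V, ‖T v‖ ≤ Real.sqrt (C * K) * ‖v‖ := by
    intro v
    have h1 : ‖T v‖ ^ 2 ≤ ∑ g ∈ f.support, ‖f g‖ * ‖inner ℂ ((π g : V →L[ℂ] V) v) (T v)‖ := by
      have e1 : ((‖T v‖ ^ 2 : ℝ) : ℂ) = inner ℂ (T v) (T v) := by
        rw [inner_self_eq_norm_sq_to_K]; push_cast; rfl
      have e2' : ∀ w : V, inner ℂ (T v) w = ∑ g ∈ f.support, (starRingEnd ℂ) (f g) *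
          inner ℂ ((π g : V →L[ℂ] V) v) w := by
        intro w
        rw [hT, Finsupp.sum, sum_apply, sum_inner]
        refine Finset.sum_congr rfl fun g _ => ?_
        rw [smul_apply, inner_smul_left]
      have e2 := e2' (T v)
      calc ‖T v‖ ^ 2 = ‖((‖T v‖ ^ 2 : ℝ) : ℂ)‖ := by
            rw [Complex.norm_real, Real.norm_of_nonneg (by positivity)]
        _ = ‖∑ g ∈ f.support, (starRingEnd ℂ) (f g) *
          inner ℂ ((π g : V →L[ℂ] V) v) (T v)‖ := by rw [e1, e2]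
        _ ≤ ∑ g ∈ f.support, ‖(starRingEnd ℂ) (f g) * inner ℂ ((π g : V →L[ℂ] V) v) (T v)‖ :=
            norm_sum_le _ _
        _ = _ := Finset.sum_congr rfl fun g _ => by rw [norm_mul, RCLike.norm_conj]
    have h2 : (∑ g ∈ f.support, ‖f g‖ * ‖inner ℂ ((π g : V →L[ℂ] V) v) (T v)‖) ^ 2 ≤
        K * (C * (‖v‖ ^ 2 * ‖T v‖ ^ 2)) := by
      have e0 : ∀ a b x : ℝ, 0 < x → a * b = (a * x ^ (s / 2)) * (b * x ^ (-(s / 2))) := by
        intro a b x hx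
        have e : x ^ (s / 2) * x ^ (-(s / 2)) = 1 := by
          rw [← Real.rpow_add hx, add_neg_cancel, Real.rpow_zero]
        linear_combination (-(a * b)) * e
      have e1 : ∀ g, ‖f g‖ * ‖inner ℂ ((π g : V →L[ℂ] V) v) (T v)‖ =
          (‖f g‖ * (1 + (L g : ℝ)) ^ (s / 2)) *
            (‖inner ℂ ((π g : V →L[ℂ] V) v) (T v)‖ * (1 + (L g : ℝ)) ^ (-(s / 2))) :=
        fun g => e0 _ _ _ (hpos g)
      rw [Finset.sum_congr rfl fun g _ => e1 g]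
      refine (Finset.sum_mul_sq_le_sq_mul_sq _ _ _).trans ?_
      have e2 : ∑ g ∈ f.support, (‖f g‖ * (1 + (L g : ℝ)) ^ (s / 2)) ^ 2 = K := by
        rw [hK, Finsupp.sum]
        refine Finset.sum_congr rfl fun g _ => ?_
        rw [mul_pow, ← Real.rpow_natCast ((1 + (L g : ℝ)) ^ (s / 2)) 2, ← Real.rpow_mul (hpos g).le]
        norm_num
      have e3 : ∑ g ∈ f.support, (‖inner ℂ ((π g : V →L[ℂ] V) v) (T v)‖ *
          (1 + (L g : ℝ)) ^ (-(s / 2))) ^ 2 ≤ C * (‖v‖ ^ 2 * ‖T v‖ ^ 2) := by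
        refine le_trans (le_of_eq ?_) (rd_all π h v (T v) f.support)
        refine Finset.sum_congr rfl fun g _ => ?_
        rw [mul_pow, ← Real.rpow_natCast ((1 + (L g : ℝ)) ^ (-(s / 2))) 2,
          ← Real.rpow_mul (hpos g).le]
        norm_num
      rw [e2]
      exact mul_le_mul_of_nonneg_left e3 hK0
    rcases eq_or_ne (‖T v‖) 0 with h0 | h0
    · rw [h0]; positivity
    · have h3 : 0 < ‖T v‖ := lt_of_le_of_ne (norm_nonneg _) (Ne.symm h0)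
      have h4 : (‖T v‖ ^ 2) ^ 2 ≤ K * (C * (‖v‖ ^ 2 * ‖T v‖ ^ 2)) :=
        (pow_le_pow_left₀ (by positivity) h1 2).trans h2
      have h5 : ‖T v‖ ^ 2 ≤ C * K * ‖v‖ ^ 2 := by
        have e : ‖T v‖ ^ 2 * ‖T v‖ ^ 2 ≤ (C * K * ‖v‖ ^ 2) * ‖T v‖ ^ 2 := by nlinarith
        exact le_of_mul_le_mul_right e (by positivity)
      have h6 : Real.sqrt (C * K) * ‖v‖ = Real.sqrt (C * K * ‖v‖ ^ 2) := by
        rw [Real.sqrt_mul (x := C * K) (by positivity) (‖v‖ ^ 2), Real.sqrt_sq (norm_nonneg _)]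
      rw [h6]
      exact Real.le_sqrt_of_sq_le h5
  have h7 : ‖T‖ ≤ Real.sqrt (C * K) := ContinuousLinearMap.opNorm_le_bound _ (Real.sqrt_nonneg _) key
  calc ‖T‖ ^ 2 ≤ Real.sqrt (C * K) ^ 2 := pow_le_pow_left₀ (norm_nonneg _) h7 2
    _ = C * K := Real.sq_sqrt (by positivity)

/-- The `ℓ²` norm of `f` is bounded by the norm of the convolution operator. -/
theorem lam_norm (f : G →₀ ℂ) :
    (f.sum fun _ c => ‖c‖ ^ 2) ≤ ‖f.sum fun g c => c • lam g‖ ^ 2 := by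
  classical
  set T := f.sum fun g c => c • lam g with hT
  set δ : lp (fun _ : G => ℂ) 2 := lp.single 2 1 (1 : ℂ) with hδ
  have hδ1 : ‖δ‖ = 1 := by
    rw [hδ, lp.norm_single (by norm_num)]
    simp
  have h1 : ∀ x, T δ x = f x := by
    intro x
    have e1 : T δ x = ∑ g ∈ f.support, f g * δ (g⁻¹ * x) := by
      rw [hT, Finsupp.sum, sum_apply, lp.coeFn_sum, Finset.sum_apply]
      rfl
    rw [e1]
    have e2 : ∀ g, f g * δ (g⁻¹ * x) = if g = x then f x else 0 := by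
      intro g
      by_cases hg : g = x
      · subst hg
        rw [inv_mul_cancel, hδ, lp.single_apply_self, mul_one, if_pos rfl]
      · rw [hδ, lp.single_apply_ne, mul_zero, if_neg hg]
        intro h
        exact hg (inv_mul_eq_one.1 h)
    rw [Finset.sum_congr rfl fun g _ => e2 g, Finset.sum_ite_eq']
    split_ifs with hx
    · rfl
    · exact (Finsupp.notMem_support_iff.1 hx).symm
  have h2 := lp.sum_rpow_le_norm_rpow (p := 2) (by norm_num) (T δ) f.support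
  have h3 : ‖T δ‖ ≤ ‖T‖ := by
    have := T.le_opNorm δ
    rwa [hδ1, mul_one] at this
  have h4 : (f.sum fun _ c => ‖c‖ ^ 2) ≤ ‖T δ‖ ^ 2 := by
    rw [Finsupp.sum]
    have e : (2 : ENNReal).toReal = ((2 : ℕ) : ℝ) := by norm_num
    rw [e] at h2
    simp only [Real.rpow_natCast, h1] at h2
    exact h2
  exact h4.trans (pow_le_pow_left₀ (norm_nonneg _) h3 2)

end Estimate

/-- Exponential versus polynomial growth. -/
theorem exp_poly {A B C R s : ℝ} (hA : 0 ≤ A) (hR : 0 ≤ R)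
    (h : ∀ k : ℕ, B ^ (2 ^ k) ≤ C * (1 + 2 ^ k * R) ^ s * A ^ (2 ^ k)) : B ≤ A := by
  by_contra hcon
  push Not at hcon
  have hB : 0 < B := lt_of_le_of_lt hA hcon
  rcases eq_or_lt_of_le hA with h0 | h0
  · have h1 := h 0
    rw [← h0] at h1
    norm_num at h1
    linarith
  have hq : 1 < B / A := (one_lt_div h0).2 hcon
  obtain ⟨m, hm⟩ := exists_nat_ge s
  have h1 : ∀ k : ℕ, (B / A) ^ (2 ^ k) ≤ |C| * (1 + R) ^ m * ((2 ^ k : ℕ) : ℝ) ^ m := by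
    intro k
    have hn : (1 : ℝ) ≤ ((2 ^ k : ℕ) : ℝ) := by exact_mod_cast Nat.one_le_two_pow
    have e1 : (B / A) ^ (2 ^ k) ≤ C * (1 + 2 ^ k * R) ^ s := by
      rw [div_pow, div_le_iff₀ (by positivity)]
      exact h k
    have e2 : (1 + 2 ^ k * R) ^ s ≤ ((1 + R) * ((2 ^ k : ℕ) : ℝ)) ^ (m : ℝ) := by
      have hb1 : (1 : ℝ) ≤ 1 + 2 ^ k * R := by
        have : (0 : ℝ) ≤ 2 ^ k * R := by positivity
        linarith
      have hb2 : (1 + 2 ^ k * R : ℝ) ≤ (1 + R) * ((2 ^ k : ℕ) : ℝ) := by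
        push_cast at hn ⊢
        nlinarith
      calc (1 + 2 ^ k * R) ^ s ≤ (1 + 2 ^ k * R) ^ (m : ℝ) := Real.rpow_le_rpow_of_exponent_le hb1 hm
        _ ≤ _ := Real.rpow_le_rpow (by linarith) hb2 (by positivity)
    rw [Real.rpow_natCast] at e2
    have e3 : 0 ≤ (1 + 2 ^ k * R) ^ s := Real.rpow_nonneg (by positivity) _
    calc (B / A) ^ (2 ^ k) ≤ C * (1 + 2 ^ k * R) ^ s := e1
      _ ≤ |C| * (1 + 2 ^ k * R) ^ s := mul_le_mul_of_nonneg_right (le_abs_self C) e3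
      _ ≤ |C| * ((1 + R) * ((2 ^ k : ℕ) : ℝ)) ^ m := mul_le_mul_of_nonneg_left e2 (abs_nonneg _)
      _ = _ := by rw [mul_pow]; ring
  have h2 := tendsto_pow_const_div_const_pow_of_one_lt m hq
  have h3 : Tendsto (fun k : ℕ => (2 : ℕ) ^ k) atTop atTop :=
    tendsto_pow_atTop_atTop_of_one_lt (by norm_num)
  have h4 := (h2.comp h3).const_mul (|C| * (1 + R) ^ m)
  rw [mul_zero] at h4
  have h5 : ∀ k : ℕ, 1 ≤ |C| * (1 + R) ^ m * (((fun n : ℕ => (n : ℝ) ^ m / (B / A) ^ n) ∘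
      fun k : ℕ => (2 : ℕ) ^ k) k) := by
    intro k
    simp only [Function.comp_apply]
    rw [← mul_div_assoc, one_le_div (by positivity)]
    exact h1 k
  exact absurd (ge_of_tendsto' h4 h5) (by norm_num)

end Pool.Agent.helper91.RDR
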