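import Pool.Agent.helper91.RDR.Wk

/-!
# C*-simple groups: a representation with rapid decay has the norms of the regular representation
-/

namespace Pool.Agent.helper91.RDR

open scoped InnerProductSpace
open Filter Topology

variable {G : Type*} [Group G] {V : Type*} [NormedAddCommGroup V] [InnerProductSpace ℂ V]
  [CompleteSpace V]

/-- The left regular representation as a homomorphism. -/
noncomputable def lamHom (G : Type*) [Group G] :
    G →* (lp (fun _ : G => ℂ) 2 →L[ℂ] lp (fun _ : G => ℂ) 2) where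
  toFun := lam
  map_one' := lam_one
  map_mul' := lam_mul

/-- The reduced C*-algebra as a star subalgebra. -/
noncomputable def redAlg (G : Type*) [Group G] :
    StarSubalgebra ℂ (lp (fun _ : G => ℂ) 2 →L[ℂ] lp (fun _ : G => ℂ) 2) :=
  (StarAlgebra.adjoin ℂ (Set.range (lam (G := G)))).topologicalClosure

theorem mem_redAlg {a : lp (fun _ : G => ℂ) 2 →L[ℂ] lp (fun _ : G => ℂ) 2} :
    a ∈ redAlg G ↔ a ∈ redCstar G := by
  have h1 : (star (Set.range (lam (G := G)))) = Set.range (lam (G := G)) := by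
    ext x
    rw [Set.mem_star]
    constructor
    · rintro ⟨g, hg⟩
      exact ⟨g⁻¹, by rw [← lam_star, hg, star_star]⟩
    · rintro ⟨g, rfl⟩
      exact ⟨g⁻¹, (lam_star g).symm⟩
  have h2 : (Submonoid.closure (Set.range (lam (G := G))) :
      Set (lp (fun _ : G => ℂ) 2 →L[ℂ] lp (fun _ : G => ℂ) 2)) = Set.range (lam (G := G)) := by
    have : (Set.range (lam (G := G))) = (MonoidHom.mrange (lamHom G) :
        Set (lp (fun _ : G => ℂ) 2 →L[ℂ] lp (fun _ : G => ℂ) 2)) := rfl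
    rw [this, Submonoid.closure_eq]
  have h3 : ((StarAlgebra.adjoin ℂ (Set.range (lam (G := G))) : StarSubalgebra ℂ _) :
      Set (lp (fun _ : G => ℂ) 2 →L[ℂ] lp (fun _ : G => ℂ) 2)) =
      Submodule.span ℂ (Set.range (lam (G := G))) := by
    have e := StarAlgebra.adjoin_eq_span (R := ℂ) (Set.range (lam (G := G)))
    rw [h1, Set.union_self, h2] at e
    rw [← e]
    rfl
  show a ∈ closure ((StarAlgebra.adjoin ℂ (Set.range (lam (G := G))) : StarSubalgebra ℂ _) :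
      Set (lp (fun _ : G => ℂ) 2 →L[ℂ] lp (fun _ : G => ℂ) 2)) ↔ _
  rw [h3]
  exact Iff.rfl

/-- The C*-algebra generated by the pairs `(λ g, π g)`. -/
noncomputable def pairAlg (π : G →* unitary (V →L[ℂ] V)) :
    StarSubalgebra ℂ ((lp (fun _ : G => ℂ) 2 →L[ℂ] lp (fun _ : G => ℂ) 2) × (V →L[ℂ] V)) :=
  (StarAlgebra.adjoin ℂ (Set.range (pairRep π))).topologicalClosure

theorem pairAlg_isClosed (π : G →* unitary (V →L[ℂ] V)) :
    IsClosed ((pairAlg π : StarSubalgebra ℂ _) : Set ((lp (fun _ : G => ℂ) 2 →L[ℂ]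
      lp (fun _ : G => ℂ) 2) × (V →L[ℂ] V))) :=
  StarSubalgebra.isClosed_topologicalClosure _

/-- `snd` is norm decreasing with respect to `fst`. -/
theorem pairAlg_le {π : G →* unitary (V →L[ℂ] V)} {L : G → ℕ} (hL : IsLength L)
    (hle : ∀ R x, x ∈ ballSpan L (pairRep π) R → ‖x.2‖ ≤ ‖x.1‖) {x} (hx : x ∈ pairAlg π) :
    ‖x.2‖ ≤ ‖x.1‖ := by
  have h1 : x ∈ closure ((StarAlgebra.adjoin ℂ (Set.range (pairRep π)) : StarSubalgebra ℂ _) :
      Set ((lp (fun _ : G => ℂ) 2 →L[ℂ] lp (fun _ : G => ℂ) 2) × (V →L[ℂ] V))) := hx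
  have h2 : IsClosed {x : ((lp (fun _ : G => ℂ) 2 →L[ℂ] lp (fun _ : G => ℂ) 2) × (V →L[ℂ] V)) |
      ‖x.2‖ ≤ ‖x.1‖} :=
    isClosed_le (continuous_snd.norm) (continuous_fst.norm)
  refine closure_minimal ?_ h2 h1
  intro y hy
  obtain ⟨R, hR⟩ := adjoin_ballSpan hL (pairRep π) (pairRep_star π) hy
  exact hle R y hR

theorem pairAlg_fst {π : G →* unitary (V →L[ℂ] V)} {x} (hx : x ∈ pairAlg π) :
    x.1 ∈ redAlg G := by
  have h1 : x ∈ closure ((StarAlgebra.adjoin ℂ (Set.range (pairRep π)) : StarSubalgebra ℂ _) :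
      Set ((lp (fun _ : G => ℂ) 2 →L[ℂ] lp (fun _ : G => ℂ) 2) × (V →L[ℂ] V))) := hx
  show x.1 ∈ closure ((StarAlgebra.adjoin ℂ (Set.range (lam (G := G))) : StarSubalgebra ℂ _) :
      Set (lp (fun _ : G => ℂ) 2 →L[ℂ] lp (fun _ : G => ℂ) 2))
  refine map_mem_closure continuous_fst h1 ?_
  intro y hy
  induction hy using StarAlgebra.adjoin_induction with
  | mem y h =>
    obtain ⟨g, rfl⟩ := h
    exact StarAlgebra.subset_adjoin ℂ _ ⟨g, rfl⟩
  | algebraMap r => exact (StarAlgebra.adjoin ℂ (Set.range (lam (G := G)))).algebraMap_mem r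
  | add y z _ _ hy hz => exact add_mem hy hz
  | mul y z _ _ hy hz => exact mul_mem hy hz
  | star y _ hy => exact star_mem hy

/-- Every element of the reduced C*-algebra is the first component of a pair. -/
theorem exists_pair {π : G →* unitary (V →L[ℂ] V)} {L : G → ℕ} (hL : IsLength L)
    (hle : ∀ R x, x ∈ ballSpan L (pairRep π) R → ‖x.2‖ ≤ ‖x.1‖) {b} (hb : b ∈ redAlg G) :
    ∃ y, (b, y) ∈ pairAlg π := by
  have hcl := pairAlg_isClosed π
  haveI : CompleteSpace (pairAlg π) := hcl.completeSpace_coe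
  let p : pairAlg π → (lp (fun _ : G => ℂ) 2 →L[ℂ] lp (fun _ : G => ℂ) 2) := fun x => x.1.1
  have hiso : Isometry p := by
    refine Isometry.of_dist_eq fun x y => ?_
    rw [dist_eq_norm, dist_eq_norm]
    have h1 := pairAlg_le hL hle (x - y).2
    show ‖(x - y).1.1‖ = ‖(x - y).1‖
    rw [Prod.norm_def, max_eq_left h1]
  have hrange : IsClosed (Set.range p) := hiso.isClosedEmbedding.isClosed_range
  have h1 : b ∈ closure ((StarAlgebra.adjoin ℂ (Set.range (lam (G := G))) : StarSubalgebra ℂ _) :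
      Set (lp (fun _ : G => ℂ) 2 →L[ℂ] lp (fun _ : G => ℂ) 2)) := hb
  have h2 : b ∈ Set.range p := by
    refine closure_minimal ?_ hrange h1
    intro a ha
    obtain ⟨R, hR⟩ := adjoin_ballSpan hL (lamHom G) (fun g => lam_star g) ha
    obtain ⟨f, hf, rfl⟩ := ballSpan_exists _ hR
    have h3 : (f.sum fun g c => c • pairRep π g) ∈ pairAlg π := by
      apply StarSubalgebra.le_topologicalClosure
      refine sum_mem fun g _ => ?_
      exact (StarAlgebra.adjoin ℂ (Set.range (pairRep π))).smul_mem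
        (StarAlgebra.subset_adjoin ℂ _ ⟨g, rfl⟩) _
    refine ⟨⟨_, h3⟩, ?_⟩
    exact fst_sum π f
  obtain ⟨x, hx⟩ := h2
  refine ⟨x.1.2, ?_⟩
  rw [← hx]
  exact x.2

/-- For a C*-simple group the two norms agree. -/
theorem norm_eq_of_simple [Nontrivial V] {π : G →* unitary (V →L[ℂ] V)} {L : G → ℕ}
    (hL : IsLength L) (hle : ∀ R x, x ∈ ballSpan L (pairRep π) R → ‖x.2‖ ≤ ‖x.1‖)
    (hsim : CStarSimple G) {x} (hx : x ∈ pairAlg π) : ‖x.1‖ ≤ ‖x.2‖ := by
  haveI hcl := pairAlg_isClosed π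
  -- the ideal
  let J : Submodule ℂ (lp (fun _ : G => ℂ) 2 →L[ℂ] lp (fun _ : G => ℂ) 2) :=
    { carrier := {a | (a, (0 : V →L[ℂ] V)) ∈ pairAlg π}
      zero_mem' := zero_mem (pairAlg π)
      add_mem' := by
        intro a b ha hb
        have := (pairAlg π).add_mem ha hb
        simpa using this
      smul_mem' := by
        intro c a ha
        have := (pairAlg π).smul_mem ha c
        simpa using this }
  have hJ : ∀ a, a ∈ J ↔ (a, (0 : V →L[ℂ] V)) ∈ pairAlg π := fun a => Iff.rfl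
  have hJc : IsClosed (J : Set (lp (fun _ : G => ℂ) 2 →L[ℂ] lp (fun _ : G => ℂ) 2)) :=
    hcl.preimage (f := fun a : (lp (fun _ : G => ℂ) 2 →L[ℂ] lp (fun _ : G => ℂ) 2) =>
      (a, (0 : V →L[ℂ] V))) (by fun_prop)
  have hsim' : TopSimple (redCstar G) := by
    rw [← redCstar_eq]
    exact hsim
  have hid : ∀ a ∈ redCstar G, ∀ x ∈ J, a * x ∈ J ∧ x * a ∈ J := by
    intro a ha x hx
    obtain ⟨y, hy⟩ := exists_pair hL hle (mem_redAlg.2 ha)
    refine ⟨?_, ?_⟩
    · have := (pairAlg π).mul_mem hy hx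
      rw [hJ]
      simpa using this
    · have := (pairAlg π).mul_mem hx hy
      rw [hJ]
      simpa using this
  have hbot : ∀ a ∈ J, a = 0 := by
    rcases hsim' J hJc (fun x hx => mem_redAlg.1 (pairAlg_fst ((hJ x).1 hx))) hid with h | h
    · exact h
    · exfalso
      have h1 : (1 : lp (fun _ : G => ℂ) 2 →L[ℂ] lp (fun _ : G => ℂ) 2) ∈ J :=
        h 1 (mem_redAlg.1 (one_mem _))
      rw [hJ] at h1
      have h2 : ((1 : lp (fun _ : G => ℂ) 2 →L[ℂ] lp (fun _ : G => ℂ) 2),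
          (0 : V →L[ℂ] V)) - 1 ∈ pairAlg π := sub_mem h1 (one_mem _)
      have h3 := pairAlg_le hL hle h2
      have h4 : (1 : V →L[ℂ] V) ≠ 0 := one_ne_zero
      have h5 : (((1 : lp (fun _ : G => ℂ) 2 →L[ℂ] lp (fun _ : G => ℂ) 2),
          (0 : V →L[ℂ] V)) - 1).1 = 0 := by
        show (1 : lp (fun _ : G => ℂ) 2 →L[ℂ] lp (fun _ : G => ℂ) 2) - 1 = 0
        exact sub_self _
      rw [h5, norm_zero] at h3
      have h6 : (((1 : lp (fun _ : G => ℂ) 2 →L[ℂ] lp (fun _ : G => ℂ) 2),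
          (0 : V →L[ℂ] V)) - 1).2 = -1 := by
        show (0 : V →L[ℂ] V) - 1 = -1
        exact zero_sub _
      rw [h6, norm_neg] at h3
      exact h4 (norm_le_zero_iff.1 h3)
  -- the second projection is injective
  let φ : pairAlg π →⋆ₐ[ℂ] (V →L[ℂ] V) := (StarAlgHom.snd ℂ _ _).comp (pairAlg π).subtype
  let _ : CStarAlgebra (pairAlg π) := StarSubalgebra.cstarAlgebra (pairAlg π)
  have hφ : Function.Injective φ := by
    rw [injective_iff_map_eq_zero]
    intro a ha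
    have ha2 : a.1.2 = 0 := ha
    have h1 : a.1.1 ∈ J := by
      rw [hJ]
      have : (a.1.1, (0 : V →L[ℂ] V)) = a.1 := by rw [← ha2]
      show (a.1.1, (0 : V →L[ℂ] V)) ∈ pairAlg π
      rw [this]
      exact a.2
    exact Subtype.ext (Prod.ext (hbot _ h1) ha2)
  have h1 := NonUnitalStarAlgHom.norm_map φ hφ ⟨x, hx⟩
  have h2 : ‖φ ⟨x, hx⟩‖ = ‖x.2‖ := rfl
  have h3 : ‖(⟨x, hx⟩ : pairAlg π)‖ = ‖x‖ := rfl
  rw [h2, h3] at h1
  rw [h1]
  exact norm_fst_le x

end Pool.Agent.helper91.RDR
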