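import Pool.Agent.helper91.RDR.Norm

/-!
# A representation with rapid decay is weakly contained in the regular representation
-/

namespace Pool.Agent.helper91.RDR

open scoped InnerProductSpace
open Filter Topology

section BallSpan

variable {G : Type*} [Group G] {B : Type*} [Ring B] [StarRing B] [Algebra ℂ B] [StarModule ℂ B]

/-- The span of the operators `σ g`, `L g ≤ R`. -/
def ballSpan (L : G → ℕ) (σ : G →* B) (R : ℕ) : Submodule ℂ B :=
  Submodule.span ℂ (σ '' {g | L g ≤ R})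

theorem ballSpan_mono (L : G → ℕ) (σ : G →* B) {R R' : ℕ} (h : R ≤ R') :
    ballSpan L σ R ≤ ballSpan L σ R' :=
  Submodule.span_mono (Set.image_mono fun _ hg => le_trans hg h)

theorem ballSpan_mul {L : G → ℕ} (hL : IsLength L) (σ : G →* B) {R R' : ℕ} {x y : B}
    (hx : x ∈ ballSpan L σ R) (hy : y ∈ ballSpan L σ R') : x * y ∈ ballSpan L σ (R + R') := by
  have h1 : x * y ∈ ballSpan L σ R * ballSpan L σ R' := Submodule.mul_mem_mul hx hy
  unfold ballSpan at h1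
  rw [Submodule.span_mul_span] at h1
  refine Submodule.span_mono ?_ h1
  rintro _ ⟨_, ⟨g, hg, rfl⟩, _, ⟨g', hg', rfl⟩, rfl⟩
  refine ⟨g * g', (hL.mul g g').trans (add_le_add hg hg'), ?_⟩
  exact map_mul σ g g'

theorem ballSpan_one {L : G → ℕ} (hL : IsLength L) (σ : G →* B) (R : ℕ) :
    (1 : B) ∈ ballSpan L σ R :=
  Submodule.subset_span ⟨1, by simp [hL.one], map_one σ⟩

theorem ballSpan_star {L : G → ℕ} (hL : IsLength L) (σ : G →* B)
    (hσ : ∀ g, star (σ g) = σ g⁻¹) {R : ℕ} {x : B} (hx : x ∈ ballSpan L σ R) :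
    star x ∈ ballSpan L σ R := by
  unfold ballSpan at hx
  induction hx using Submodule.span_induction with
  | mem x h =>
    obtain ⟨g, hg, rfl⟩ := h
    rw [hσ]
    exact Submodule.subset_span ⟨g⁻¹, by simpa [hL.inv g] using hg, rfl⟩
  | zero => simp
  | add x y _ _ hx hy => rw [star_add]; exact add_mem hx hy
  | smul c x _ hx => rw [star_smul]; exact Submodule.smul_mem _ _ hx

theorem ballSpan_pow {L : G → ℕ} (hL : IsLength L) (σ : G →* B) {R : ℕ} {x : B}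
    (hx : x ∈ ballSpan L σ R) (n : ℕ) : x ^ n ∈ ballSpan L σ (n * R) := by
  induction n with
  | zero => rw [pow_zero]; exact ballSpan_one hL σ _
  | succ n ih =>
    rw [pow_succ, Nat.succ_mul]
    exact ballSpan_mul hL σ ih hx

theorem ballSpan_exists {L : G → ℕ} (σ : G →* B) {R : ℕ} {x : B} (hx : x ∈ ballSpan L σ R) :
    ∃ f : G →₀ ℂ, (∀ g ∈ f.support, L g ≤ R) ∧ x = f.sum fun g c => c • σ g := by
  unfold ballSpan at hx
  rw [Finsupp.mem_span_image_iff_linearCombination] at hx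
  obtain ⟨f, hf, rfl⟩ := hx
  refine ⟨f, fun g hg => ?_, rfl⟩
  exact (Finsupp.mem_supported ℂ f).1 hf hg

/-- The elements of the star algebra generated by the `σ g`. -/
theorem adjoin_ballSpan {L : G → ℕ} (hL : IsLength L) (σ : G →* B)
    (hσ : ∀ g, star (σ g) = σ g⁻¹) {x : B} (hx : x ∈ StarAlgebra.adjoin ℂ (Set.range σ)) :
    ∃ R, x ∈ ballSpan L σ R := by
  induction hx using StarAlgebra.adjoin_induction with
  | mem x h =>
    obtain ⟨g, rfl⟩ := h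
    exact ⟨L g, Submodule.subset_span ⟨g, (by simp : g ∈ {g' | L g' ≤ L g}), rfl⟩⟩
  | algebraMap r =>
    refine ⟨0, ?_⟩
    rw [Algebra.algebraMap_eq_smul_one]
    exact Submodule.smul_mem _ _ (ballSpan_one hL σ 0)
  | add x y _ _ hx hy =>
    obtain ⟨R, hR⟩ := hx
    obtain ⟨R', hR'⟩ := hy
    exact ⟨max R R', add_mem (ballSpan_mono L σ (le_max_left _ _) hR)
      (ballSpan_mono L σ (le_max_right _ _) hR')⟩
  | mul x y _ _ hx hy =>
    obtain ⟨R, hR⟩ := hx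
    obtain ⟨R', hR'⟩ := hy
    exact ⟨R + R', ballSpan_mul hL σ hR hR'⟩
  | star x _ hx =>
    obtain ⟨R, hR⟩ := hx
    exact ⟨R, ballSpan_star hL σ hσ hR⟩

end BallSpan

section Regular

variable {G : Type*} [Group G]

theorem lam_one : (lam (1 : G)) = 1 := by
  ext ξ x
  show ξ (1⁻¹ * x) = ξ x
  rw [inv_one, one_mul]

theorem lam_mul (g h : G) : lam (g * h) = lam g * lam h := by
  ext ξ x
  show ξ ((g * h)⁻¹ * x) = ξ (h⁻¹ * (g⁻¹ * x))
  rw [mul_inv_rev, mul_assoc]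

theorem lam_star (g : G) : star (lam g) = lam g⁻¹ := by
  rw [ContinuousLinearMap.star_eq_adjoint]
  symm
  rw [ContinuousLinearMap.eq_adjoint_iff]
  intro ξ η
  rw [lp.inner_eq_tsum, lp.inner_eq_tsum]
  have h1 : ∀ x, inner ℂ ((lam g⁻¹ ξ) x) (η x) =
      (fun y => inner ℂ (ξ y) ((lam g η) y)) (g * x) := by
    intro x
    show inner ℂ (ξ (g⁻¹⁻¹ * x)) (η x) = inner ℂ (ξ (g * x)) (η (g⁻¹ * (g * x)))
    rw [inv_inv, inv_mul_cancel_left]
  rw [tsum_congr h1]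
  exact (Equiv.mulLeft g).tsum_eq fun y => inner ℂ (ξ y) ((lam g η) y)

variable {V : Type*} [NormedAddCommGroup V] [InnerProductSpace ℂ V] [CompleteSpace V]

/-- The pair `(λ, π)` of representations. -/
noncomputable def pairRep (π : G →* unitary (V →L[ℂ] V)) :
    G →* ((lp (fun _ : G => ℂ) 2 →L[ℂ] lp (fun _ : G => ℂ) 2) × (V →L[ℂ] V)) where
  toFun g := (lam g, (π g : V →L[ℂ] V))
  map_one' := by rw [lam_one, map_one]; rfl
  map_mul' g h := by rw [lam_mul, map_mul]; rfl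

theorem pairRep_star (π : G →* unitary (V →L[ℂ] V)) (g : G) :
    star (pairRep π g) = pairRep π g⁻¹ := by
  show (star (lam g), star (π g : V →L[ℂ] V)) = (lam g⁻¹, (π g⁻¹ : V →L[ℂ] V))
  rw [lam_star, map_inv]
  rfl

theorem fst_sum (π : G →* unitary (V →L[ℂ] V)) (f : G →₀ ℂ) :
    (f.sum fun g c => c • pairRep π g).1 = f.sum fun g c => c • lam g := by
  rw [Finsupp.sum, Finsupp.sum, Prod.fst_sum]
  rfl

theorem snd_sum (π : G →* unitary (V →L[ℂ] V)) (f : G →₀ ℂ) :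
    (f.sum fun g c => c • pairRep π g).2 = f.sum fun g c => c • (π g : V →L[ℂ] V) := by
  rw [Finsupp.sum, Finsupp.sum, Prod.snd_sum]
  rfl

theorem pair_bound {L : G → ℕ} (π : G →* unitary (V →L[ℂ] V)) {s C : ℝ} (hs : 0 < s) (hC : 0 ≤ C)
    (h : ∀ v w : V, ‖v‖ = 1 → ‖w‖ = 1 → ∀ F : Finset G,
      ∑ g ∈ F, ‖inner ℂ ((π g : V →L[ℂ] V) v) w‖ ^ 2 * (1 + (L g : ℝ)) ^ (-s) ≤ C)
    {R : ℕ} {x} (hx : x ∈ ballSpan L (pairRep π) R) :
    ‖x.2‖ ^ 2 ≤ C * (1 + (R : ℝ)) ^ s * ‖x.1‖ ^ 2 := by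
  obtain ⟨f, hf, rfl⟩ := ballSpan_exists _ hx
  rw [fst_sum, snd_sum]
  have h1 := rd_norm π hC h f
  have h2 := lam_norm f
  have h3 : (f.sum fun g c => ‖c‖ ^ 2 * (1 + (L g : ℝ)) ^ s) ≤
      (1 + (R : ℝ)) ^ s * f.sum fun _ c => ‖c‖ ^ 2 := by
    rw [Finsupp.sum, Finsupp.sum, Finset.mul_sum]
    refine Finset.sum_le_sum fun g hg => ?_
    have : (1 + (L g : ℝ)) ^ s ≤ (1 + (R : ℝ)) ^ s := by
      apply Real.rpow_le_rpow (by positivity) _ hs.le
      have : (L g : ℝ) ≤ R := by exact_mod_cast hf g hg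
      linarith
    rw [mul_comm]
    exact mul_le_mul_of_nonneg_right this (by positivity)
  calc _ ≤ C * f.sum fun g c => ‖c‖ ^ 2 * (1 + (L g : ℝ)) ^ s := h1
    _ ≤ C * ((1 + (R : ℝ)) ^ s * f.sum fun _ c => ‖c‖ ^ 2) := mul_le_mul_of_nonneg_left h3 hC
    _ ≤ C * ((1 + (R : ℝ)) ^ s * ‖f.sum fun g c => c • lam g‖ ^ 2) :=
        mul_le_mul_of_nonneg_left (mul_le_mul_of_nonneg_left h2 (by positivity)) hC
    _ = _ := by ring

/-- Weak containment. -/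
theorem pair_le {L : G → ℕ} (hL : IsLength L) (π : G →* unitary (V →L[ℂ] V)) {s C : ℝ}
    (hs : 0 < s) (hC : 0 ≤ C)
    (h : ∀ v w : V, ‖v‖ = 1 → ‖w‖ = 1 → ∀ F : Finset G,
      ∑ g ∈ F, ‖inner ℂ ((π g : V →L[ℂ] V) v) w‖ ^ 2 * (1 + (L g : ℝ)) ^ (-s) ≤ C)
    {R : ℕ} {x} (hx : x ∈ ballSpan L (pairRep π) R) : ‖x.2‖ ≤ ‖x.1‖ := by
  obtain ⟨y, hy⟩ : ∃ y, y = star x * x := ⟨_, rfl⟩
  have hyR : y ∈ ballSpan L (pairRep π) (R + R) := by
    rw [hy]
    exact ballSpan_mul hL _ (ballSpan_star hL _ (pairRep_star π) hx) hx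
  have hsa1 : IsSelfAdjoint y.1 := by
    rw [hy]
    exact IsSelfAdjoint.star_mul_self x.1
  have hsa2 : IsSelfAdjoint y.2 := by
    rw [hy]
    exact IsSelfAdjoint.star_mul_self x.2
  have hn1 : ‖y.1‖ = ‖x.1‖ ^ 2 := by
    rw [hy]
    exact (CStarRing.norm_star_mul_self (x := x.1)).trans (sq _).symm
  have hn2 : ‖y.2‖ = ‖x.2‖ ^ 2 := by
    rw [hy]
    exact (CStarRing.norm_star_mul_self (x := x.2)).trans (sq _).symm
  have key : (‖y.2‖ ^ 2) ≤ ‖y.1‖ ^ 2 := by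
    refine exp_poly (C := C) (R := ((R + R : ℕ) : ℝ)) (s := s) (by positivity) (by positivity) ?_
    intro k
    have h1 := pair_bound π hs hC h (ballSpan_pow hL _ hyR (2 ^ k))
    rw [Prod.pow_fst, Prod.pow_snd, hsa2.norm_pow_two_pow, hsa1.norm_pow_two_pow] at h1
    have e1 : (‖y.2‖ ^ 2) ^ 2 ^ k = (‖y.2‖ ^ 2 ^ k) ^ 2 := by rw [← pow_mul, ← pow_mul, mul_comm]
    have e2 : (‖y.1‖ ^ 2) ^ 2 ^ k = (‖y.1‖ ^ 2 ^ k) ^ 2 := by rw [← pow_mul, ← pow_mul, mul_comm]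
    rw [e1, e2]
    push_cast at h1 ⊢
    exact h1
  rw [hn1, hn2, ← pow_mul, ← pow_mul] at key
  exact le_of_pow_le_pow_left₀ (by norm_num) (norm_nonneg _) key

end Regular

end Pool.Agent.helper91.RDR
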